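import Pool.Agent.P.MP_19a1a5_lc.Col

/-!
From set-coded ultrapowers to collapsed ultrapowers indexed by a type.
-/

set_option autoImplicit false
set_option linter.unusedSectionVars false

namespace Pool.Agent.P.MP_19a1a5_lc

open ZFSet Filter Ordinal

universe u v

attribute [local irreducible] app gr ZFSet.sep ZFSet.pair

/-- `Z` is an ultrafilter on `Y`. -/
def UF0 (Y Z : ZFSet.{u}) : Prop :=
  Y ∈ Z ∧ ∅ ∉ Z ∧ (∀ p : ZFSet.{u} × ZFSet.{u}, p.1 ∈ Z → p.2 ∈ Z → p.1 ∩ p.2 ∈ Z) ∧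
    (∀ p : ZFSet.{u} × ZFSet.{u}, p.1 ∈ Z → p.1 ⊆ p.2 → p.2 ⊆ Y → p.2 ∈ Z) ∧
    ∀ A, A ⊆ Y → A ∈ Z ∨ Y \ A ∈ Z

theorem exists_uf {Y Z : ZFSet.{u}} (h : UF0 Y Z) : ∃ 𝒵 : Ultrafilter ZFSet.{u},
    ∀ p : ZFSet.{u} → Prop, (∀ᶠ y in (𝒵 : Filter ZFSet), p y) ↔ ZFSet.sep p Y ∈ Z := by
  obtain ⟨h1, h2, h3, h4, h5⟩ := h
  let F : Filter ZFSet.{u} :=
    { sets := {S | ZFSet.sep (· ∈ S) Y ∈ Z}
      univ_sets := by
        have : ZFSet.sep (· ∈ (Set.univ : Set ZFSet.{u})) Y = Y := by ext; simp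
        show ZFSet.sep (· ∈ (Set.univ : Set ZFSet.{u})) Y ∈ Z
        rwa [this]
      sets_of_superset := fun {S T} hS hST =>
        h4 (_, _) hS (fun z hz => mem_sep.2 ⟨(mem_sep.1 hz).1, hST (mem_sep.1 hz).2⟩) sep_subset
      inter_sets := fun {S T} hS hT => by
        have := h3 (_, _) hS hT
        have e : ZFSet.sep (· ∈ S ∩ T) Y = ZFSet.sep (· ∈ S) Y ∩ ZFSet.sep (· ∈ T) Y := by
          ext z; simp only [mem_sep, ZFSet.mem_inter, Set.mem_inter_iff]; tauto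
        show ZFSet.sep (· ∈ S ∩ T) Y ∈ Z
        rwa [e] }
  refine ⟨Ultrafilter.ofComplNotMemIff F fun S => ?_, fun p => Iff.rfl⟩
  have e : ZFSet.sep (· ∈ Sᶜ) Y = Y \ ZFSet.sep (· ∈ S) Y := by
    ext z; simp only [mem_sep, ZFSet.mem_sdiff, Set.mem_compl_iff]; tauto
  show ¬ (ZFSet.sep (· ∈ Sᶜ) Y ∈ Z) ↔ ZFSet.sep (· ∈ S) Y ∈ Z
  rw [e]
  refine ⟨fun hn => (h5 _ sep_subset).resolve_right hn, fun hS hn => h2 ?_⟩
  have : ZFSet.sep (· ∈ S) Y ∩ (Y \ ZFSet.sep (· ∈ S) Y) ∈ Z :=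
    h3 (ZFSet.sep (· ∈ S) Y, Y \ ZFSet.sep (· ∈ S) Y) hS hn
  have e2 : ZFSet.sep (· ∈ S) Y ∩ (Y \ ZFSet.sep (· ∈ S) Y) = ∅ := by
    ext z; simp only [ZFSet.mem_inter, ZFSet.mem_sdiff, notMem_empty]; tauto
  rwa [e2] at this

theorem IsUF.uf0 {Y Z : ZFSet.{u}} (h : IsUF Set.univ Y Z) : UF0 Y Z :=
  ⟨h.top, h.proper, fun _ a b => h.inter _ a _ b, fun _ a b c => h.up _ a _ trivial b c,
    fun A a => h.ultra A trivial a⟩

/-- The typed form of an ultrapower of the universe. -/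
structure VU (Y U : ZFSet.{u}) (M : Set ZFSet.{u}) (j : ZFSet.{u} → ZFSet.{u})
    (𝒰 : Ultrafilter ZFSet.{u}) (π : (ZFSet.{u} → ZFSet.{u}) → ZFSet.{u}) : Prop where
  col : Col 𝒰 π
  ev : ∀ p : ZFSet.{u} → Prop, (∀ᶠ y in (𝒰 : Filter ZFSet), p y) ↔ ZFSet.sep p Y ∈ U
  rng : M = Set.range π
  emb : ∀ x, j x = π fun _ => x
  cc : CountableInterFilter (𝒰 : Filter ZFSet.{u})
  uf : IsUF Set.univ Y U

theorem natZ_inj {m n : ℕ} (h : (m : Ordinal.{u}).toZFSet = (n : Ordinal.{u}).toZFSet) : m = n := by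
  exact_mod_cast toZFSet_injective h

theorem exists_seq (A : ℕ → ZFSet.{u}) : ∃ s : ZFSet.{u}, ∀ n : ℕ,
    app s (n : Ordinal).toZFSet = A n := by
  refine ⟨range fun n : ℕ => pair (n : Ordinal.{u}).toZFSet (A n), fun n => ?_⟩
  ext z
  simp only [mem_app, mem_range, pair_inj]
  constructor
  · rintro ⟨y, ⟨m, h1, rfl⟩, hz⟩
    rwa [← natZ_inj h1]
  · exact fun hz => ⟨_, ⟨n, rfl, rfl⟩, hz⟩

theorem IsUF.cc_of {Y U : ZFSet.{u}} (h : IsUF Set.univ Y U) {𝒰 : Ultrafilter ZFSet.{u}}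
    (ev : ∀ p : ZFSet.{u} → Prop, (∀ᶠ y in (𝒰 : Filter ZFSet), p y) ↔ ZFSet.sep p Y ∈ U) :
    CountableInterFilter (𝒰 : Filter ZFSet.{u}) := by
  refine ⟨fun S hS hS' => ?_⟩
  rcases S.eq_empty_or_nonempty with rfl | hne
  · simp
  obtain ⟨f, rfl⟩ := hS.exists_eq_range hne
  obtain ⟨s, hs⟩ := exists_seq fun n => ZFSet.sep (· ∈ f n) Y
  have h1 := h.cc s trivial fun n => by
    rw [hs]
    exact (ev _).1 (hS' _ ⟨n, rfl⟩)
  have h2 := (ev _).2 h1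
  refine h2.mono fun y hy => ?_
  rintro _ ⟨n, rfl⟩
  have := hy n
  rw [hs] at this
  exact (mem_sep.1 this).2

theorem IsUlt.vu {Y U : ZFSet.{u}} {M : Set ZFSet.{u}} {j π : ZFSet.{u} → ZFSet.{u}}
    (h : IsUlt Set.univ Y U M j π) : ∃ 𝒰 π', VU Y U M j 𝒰 π' := by
  obtain ⟨𝒰, ev⟩ := exists_uf h.uf.uf0
  have hr : M = Set.range fun F => π (gr Y F) := by
    rw [h.onto]
    ext x
    constructor
    · rintro ⟨f, ⟨-, hf⟩, rfl⟩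
      refine ⟨app f, (h.eq _ trivial _ trivial (isFn_gr _ _) hf).2 ?_⟩
      rw [sep_congr (q := fun _ => True) fun y hy => by simp [app_gr _ hy], ← ev]
      exact Eventually.of_forall fun _ => trivial
    · rintro ⟨F, rfl⟩
      exact ⟨_, ⟨trivial, isFn_gr _ _⟩, rfl⟩
  refine ⟨𝒰, fun F => π (gr Y F), ⟨fun f g => ?_, fun f g => ?_, fun g z hz => ?_⟩, ev, hr,
    fun x => ?_, h.uf.cc_of ev, h.uf⟩
  · rw [h.mem _ trivial _ trivial (isFn_gr _ _) (isFn_gr _ _), ev,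
      sep_congr fun y hy => by rw [app_gr _ hy, app_gr _ hy]]
  · rw [h.eq _ trivial _ trivial (isFn_gr _ _) (isFn_gr _ _), ev,
      sep_congr fun y hy => by rw [app_gr _ hy, app_gr _ hy]]
  · have : z ∈ M := h.trans _ (by rw [hr]; exact ⟨g, rfl⟩) z hz
    rwa [hr] at this
  · rw [h.emb x trivial, prod_eq_gr]

theorem VU.uf_eq {Y U : ZFSet.{u}} {M M' : Set ZFSet.{u}} {j j' : ZFSet.{u} → ZFSet.{u}}
    {𝒰 𝒰' : Ultrafilter ZFSet.{u}} {π π' : (ZFSet.{u} → ZFSet.{u}) → ZFSet.{u}}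
    (h : VU Y U M j 𝒰 π) (h' : VU Y U M' j' 𝒰' π') : 𝒰 = 𝒰' ∧ π = π' ∧ M = M' ∧ j = j' := by
  have e : 𝒰 = 𝒰' := Ultrafilter.ext fun S => (h.ev (· ∈ S)).trans (h'.ev (· ∈ S)).symm
  subst e
  have e2 : π = π' := funext (h.col.unique h'.col)
  subst e2
  exact ⟨rfl, rfl, h.rng.trans h'.rng.symm, funext fun x => (h.emb x).trans (h'.emb x).symm⟩

/-- the sum of a family of ultrafilters -/
noncomputable def sum {I : Type v} (𝒰 : Ultrafilter I) (𝒵 : I → Ultrafilter ZFSet.{u}) :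
    Ultrafilter (I × ZFSet.{u}) :=
  𝒰.bind fun i => (𝒵 i).map (Prod.mk i)

theorem ev_sum {I : Type v} {𝒰 : Ultrafilter I} {𝒵 : I → Ultrafilter ZFSet.{u}}
    {p : I × ZFSet.{u} → Prop} : (∀ᶠ q in (sum 𝒰 𝒵 : Filter (I × ZFSet.{u})), p q) ↔
      ∀ᶠ i in (𝒰 : Filter I), ∀ᶠ y in (𝒵 i : Filter ZFSet.{u}), p (i, y) :=
  Iff.rfl

theorem ev_sum_fst {I : Type v} {𝒰 : Ultrafilter I} {𝒵 : I → Ultrafilter ZFSet.{u}}
    {p : I → Prop} : (∀ᶠ q in (sum 𝒰 𝒵 : Filter (I × ZFSet.{u})), p q.1) ↔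
      ∀ᶠ i in (𝒰 : Filter I), p i := by
  simp [ev_sum]

theorem Col.ev_uf0 {I : Type v} {𝒰 : Ultrafilter I} {π : (I → ZFSet.{u}) → ZFSet.{u}}
    (h : Col 𝒰 π) {Y Z : I → ZFSet.{u}} (hZ : IsUF (Set.range π) (π Y) (π Z)) :
    ∀ᶠ i in (𝒰 : Filter I), UF0 (Y i) (Z i) := by
  refine ((h.mem _ _).1 hZ.top).and (Eventually.and ?_ (Eventually.and ?_ (Eventually.and ?_ ?_)))
  · rw [Ultrafilter.eventually_not, ← h.mem, h.empty]
    exact hZ.proper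
  · refine ev_forall fun f => ?_
    simp only [Ultrafilter.eventually_imp, ← h.mem, h.inter]
    exact fun a b => hZ.inter _ a _ b
  · refine ev_forall fun f => ?_
    simp only [Ultrafilter.eventually_imp, ← h.mem, ← h.subset]
    exact fun a b c => hZ.up _ a _ ⟨_, rfl⟩ b c
  · refine ev_forall fun f => ?_
    simp only [Ultrafilter.eventually_imp, Ultrafilter.eventually_or, ← h.mem, ← h.subset, h.sdiff]
    exact fun a => hZ.ultra _ ⟨_, rfl⟩ a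

theorem Col.internal {I : Type v} {𝒰 : Ultrafilter I} {π : (I → ZFSet.{u}) → ZFSet.{u}}
    (h : Col 𝒰 π) {N : Set ZFSet.{u}} {e : ZFSet.{u} → ZFSet.{u}}
    (he : Internal (Set.range π) N e) :
    ∃ (𝒵 : I → Ultrafilter ZFSet.{u}) (ϱ : (I × ZFSet.{u} → ZFSet.{u}) → ZFSet.{u}),
      Col (sum 𝒰 𝒵) ϱ ∧ N = Set.range ϱ ∧ ∀ f, e (π f) = ϱ fun q => f q.1 := by
  obtain ⟨Y', Z', ϖ, hu⟩ := he
  obtain ⟨Y, rfl⟩ := hu.uf.memY
  obtain ⟨Z, rfl⟩ := hu.uf.memZ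
  have h0 : ∀ᶠ i in (𝒰 : Filter I), ∃ 𝒵 : Ultrafilter ZFSet.{u}, ∀ p : ZFSet.{u} → Prop,
      (∀ᶠ y in (𝒵 : Filter ZFSet), p y) ↔ ZFSet.sep p (Y i) ∈ Z i :=
    (h.ev_uf0 hu.uf).mono fun i hi => exists_uf hi
  obtain ⟨𝒵, h𝒵⟩ := ev_choice h0
  let c : (I × ZFSet.{u} → ZFSet.{u}) → ZFSet.{u} := fun Φ =>
    π fun i => gr (Y i) fun y => Φ (i, y)
  have hc : ∀ Φ, IsFn (π Y) (c Φ) := fun Φ => h.isFn_gr _ _
  have hcM : ∀ Φ, c Φ ∈ Set.range π := fun Φ => ⟨_, rfl⟩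
  have key : ∀ (R : ZFSet.{u} → ZFSet.{u} → Prop),
      (∀ f g, R (π f) (π g) ↔ ∀ᶠ i in (𝒰 : Filter I), R (f i) (g i)) → ∀ Φ Ψ,
      ZFSet.sep (fun y => R (app (c Φ) y) (app (c Ψ) y)) (π Y) ∈ π Z ↔
        ∀ᶠ q in (sum 𝒰 𝒵 : Filter (I × ZFSet.{u})), R (Φ q) (Ψ q) := by
    intro R hR Φ Ψ
    rw [← h.sep Y (Q := fun i y => R (Φ (i, y)) (Ψ (i, y))) fun f hf => by
      rw [h.app_gr _ hf, h.app_gr _ hf, hR], h.mem, ev_sum]
    exact eventually_congr (h𝒵.mono fun i hi => (hi _).symm)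
  have hr : N = Set.range fun Φ => ϖ (c Φ) := by
    rw [hu.onto]
    ext x
    constructor
    · rintro ⟨_, ⟨⟨f, rfl⟩, hf⟩, rfl⟩
      have e1 : ZFSet.sep (fun y => app (c fun q => app (f q.1) q.2) y = app (π f) y) (π Y) =
          π Y := by
        ext z
        rw [mem_sep]
        refine ⟨fun a => a.1, fun hz => ⟨hz, ?_⟩⟩
        obtain ⟨a, rfl⟩ := h.tr _ _ hz
        exact (h.app_gr (fun i y => app (f i) y) hz).trans (h.capp f a)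
      have e2 : ϖ (c fun q => app (f q.1) q.2) = ϖ (π f) :=
        (hu.eq (c fun q => app (f q.1) q.2) (hcM fun q => app (f q.1) q.2) (π f) ⟨f, rfl⟩
          (hc fun q => app (f q.1) q.2) hf).2
          (by rw [e1]; exact hu.uf.top)
      exact ⟨fun q => app (f q.1) q.2, e2⟩
    · rintro ⟨Φ, rfl⟩
      exact ⟨_, ⟨hcM _, hc _⟩, rfl⟩
  refine ⟨𝒵, fun Φ => ϖ (c Φ), ⟨fun f g => ?_, fun f g => ?_, fun g z hz => ?_⟩, hr, fun f => ?_⟩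
  · rw [hu.mem _ (hcM _) _ (hcM _) (hc _) (hc _), key (· ∈ ·) h.mem]
  · rw [hu.eq _ (hcM _) _ (hcM _) (hc _) (hc _), key (· = ·) h.eq]
  · have : z ∈ N := hu.trans _ (by rw [hr]; exact ⟨g, rfl⟩) z hz
    rwa [hr] at this
  · rw [hu.emb _ ⟨f, rfl⟩, h.prod_const]

end Pool.Agent.P.MP_19a1a5_lc
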