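import Pool.Agent.P.MP_19a1a5_lc.Comp

/-!
Coding finite sets of ordinals, and the induction along the colexicographic order.
-/

set_option autoImplicit false
set_option linter.unusedSectionVars false

namespace Pool.Agent.P.MP_19a1a5_lc

open ZFSet Filter Ordinal Cardinal Finset.Colex

universe u v

attribute [local irreducible] app gr ZFSet.sep ZFSet.pair

theorem colex_wf : WellFounded fun s t : Finset Ordinal.{u} => toColex s < toColex t := by
  classical
  let f : Finset Ordinal.{u} → Colex (Ordinal.{u} →₀ ℕ) := fun s =>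
    toColex (Finsupp.onFinset s (fun a => if a ∈ s then 1 else 0) fun a ha => by
      by_contra hn
      simp [hn] at ha)
  refine Subrelation.wf (r := InvImage (· < ·) f) (fun {s t} h => ?_) (InvImage.wf f wellFounded_lt)
  obtain ⟨a, hat, has, h⟩ := toColex_lt_toColex_iff_exists_forall_lt.1 h
  have hne : (t \ s).Nonempty := ⟨a, Finset.mem_sdiff.2 ⟨hat, has⟩⟩
  have hm := Finset.mem_sdiff.1 ((t \ s).max'_mem hne)
  refine Finsupp.Colex.lt_iff.2 ⟨(t \ s).max' hne, fun b hb => ?_, ?_⟩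
  · have : b ∈ s ↔ b ∈ t := ⟨fun hs => by_contra fun ht =>
      ((h b hs ht).trans_le ((t \ s).le_max' a (Finset.mem_sdiff.2 ⟨hat, has⟩))).not_gt hb,
      fun ht => by_contra fun hs => ((t \ s).le_max' b (Finset.mem_sdiff.2 ⟨ht, hs⟩)).not_gt hb⟩
    simp [f, this]
  · simp [f, hm.1, hm.2]

theorem finset_mem_range {m : Ordinal.{u}} {t : Finset Ordinal.{u}} (ht : ∀ b ∈ t, b < m) :
    ∃ l : List (Set.Iio m), (l.map Subtype.val).toFinset = t := by
  refine ⟨t.toList.attach.map fun x => ⟨x.1, ht _ (Finset.mem_toList.1 x.2)⟩, ?_⟩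
  ext a
  simp

theorem exists_code {κ : Cardinal.{u}} (hκ : ℵ₀ < κ) : ∃ c : Finset Ordinal.{u} → Ordinal.{u},
    (∀ s, (∀ a ∈ s, a < κ.ord) → c s < κ.ord) ∧ (∀ s t, toColex s < toColex t → c s < c t) ∧
      ∀ γ < κ.ord, ∃ s, (∀ a ∈ s, a < κ.ord) ∧ c s = γ := by
  have hb : ∀ s t : Finset Ordinal.{u}, toColex t < toColex s → ∀ b ∈ t, b < s.sup id + 1 :=
    fun s t h => forall_lt_mono h.le fun b hb =>
      Order.lt_add_one_iff.2 (Finset.le_sup (f := id) hb)
  obtain ⟨c, hc⟩ := exists_rank colex_wf.{u} (fun s => by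
    refine small_of_surjective (α := {l : List (Set.Iio (s.sup id + 1)) //
      toColex (l.map Subtype.val).toFinset < toColex s})
      (f := fun l => ⟨(l.1.map Subtype.val).toFinset, l.2⟩) fun t => ?_
    obtain ⟨l, hl⟩ := finset_mem_range (hb s t.1 t.2)
    exact ⟨⟨l, by rw [hl]; exact t.2⟩, Subtype.ext hl⟩) (0 : Ordinal.{u})
  have hs : ∀ s η, η < c s → ∃ t, toColex t < toColex s ∧ c t = η := by
    intro s
    induction s using colex_wf.induction with
    | h s ih =>
      intro η hη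
      obtain ⟨t, ht, h1⟩ := (hc s).2.2 η bot_le hη
      rcases h1.eq_or_lt with rfl | h1
      · exact ⟨t, ht, rfl⟩
      · obtain ⟨r, hr, e⟩ := ih t ht η h1
        exact ⟨r, hr.trans ht, e⟩
  have hlim := isSuccLimit_ord hκ.le
  refine ⟨c, fun s h => ?_, fun s t h => (hc t).2.1 s h, fun γ hγ => ?_⟩
  · have hm : s.sup id + 1 < κ.ord :=
      hlim.add_one_lt ((Finset.sup_lt_iff hlim.bot_lt).2 h)
    have h1 : Set.Iio (c s) ⊆ Set.range fun l : List (Set.Iio (s.sup id + 1)) =>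
        c (l.map Subtype.val).toFinset := fun η hη => by
      obtain ⟨t, ht, rfl⟩ := hs s η hη
      obtain ⟨l, hl⟩ := finset_mem_range (hb s t ht)
      exact ⟨l, by simp only [hl]⟩
    have h2 := ((mk_le_mk_of_subset h1).trans mk_range_le).trans (mk_list_le_max _)
    rw [Cardinal.mk_Iio_ordinal, Cardinal.mk_Iio_ordinal] at h2
    rw [lt_ord, ← Cardinal.lift_lt.{u, u + 1}]
    refine h2.trans_lt (max_lt ?_ (Cardinal.lift_lt.2 (lt_ord.1 hm)))
    simpa using hκ
  · have hmono : StrictMono fun a : Ordinal.{u} => c {a} := fun a b h =>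
      (hc _).2.1 _ (singleton_lt_singleton.2 h)
    obtain ⟨t, ht, e⟩ := hs {γ + 1} γ ((lt_add_one γ).trans_le hmono.le_apply)
    exact ⟨t, fun a ha => (toColex_lt_singleton.1 ht a ha).trans (hlim.add_one_lt hγ), e⟩

theorem ev_nat {I : Type v} {𝒰 : Ultrafilter I} [CountableInterFilter (𝒰 : Filter I)]
    {p : ℕ → I → Prop} (h : ∀ᶠ i in (𝒰 : Filter I), ∃ n, p n i) :
    ∃ n, ∀ᶠ i in (𝒰 : Filter I), p n i := by
  by_contra hn
  simp only [not_exists, ← Ultrafilter.eventually_not] at hn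
  obtain ⟨i, ⟨n, h1⟩, h2⟩ := (h.and (eventually_countable_forall.2 hn)).exists
  exact h2 n h1

theorem Hul.trans {I : Type v} {𝒰 : Ultrafilter I} {δ : Ordinal.{u}} {f g w : I → Ordinal.{u}}
    (h1 : Hul 𝒰 δ f g) (h2 : Hul 𝒰 δ g w) : Hul 𝒰 δ f w := by
  obtain ⟨a, ha, e1⟩ := h1
  obtain ⟨b, hb, e2⟩ := h2
  exact ⟨b ∘ a, fun x hx => hb _ (ha x hx), (e1.and e2).mono fun i hi => by
    rw [hi.2, hi.1]; rfl⟩

theorem colex_interval {q r : Finset Ordinal.{u}} {b : Ordinal.{u}} (hb : b ∈ q)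
    (hmin : ∀ x ∈ q, b ≤ x) (h1 : toColex (q.erase b) ≤ toColex r) (h2 : toColex r < toColex q) :
    ∀ x ∈ r, x ∈ q.erase b ∨ x < b := by
  obtain ⟨a, haq, har, h⟩ := toColex_lt_toColex_iff_exists_forall_lt.1 h2
  rcases eq_or_ne a b with rfl | hab
  · intro x hx
    by_cases hq : x ∈ q
    · exact Or.inl (Finset.mem_erase.2 ⟨fun e => har (e ▸ hx), hq⟩)
    · exact Or.inr (h x hx hq)
  · refine absurd (toColex_lt_toColex_iff_exists_forall_lt.2
      ⟨a, Finset.mem_erase.2 ⟨hab, haq⟩, har, fun x hx hx' => ?_⟩) h1.not_gt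
    by_cases hq : x ∈ q
    · have : x = b := by_contra fun e => hx' (Finset.mem_erase.2 ⟨e, hq⟩)
      rw [this]
      exact lt_of_le_of_ne (hmin a haq) hab.symm
    · exact h x hx hq

theorem colex_union_lt {q s : Finset Ordinal.{u}} {b : Ordinal.{u}} (hb : b ∈ q)
    (hs : ∀ x ∈ s, x < b) : toColex (q.erase b ∪ s) < toColex q := by
  refine toColex_lt_toColex_iff_exists_forall_lt.2 ⟨b, hb, fun h => ?_, fun x hx hq => ?_⟩
  · rcases Finset.mem_union.1 h with h | h
    exacts [Finset.notMem_erase _ _ h, lt_irrefl _ (hs b h)]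
  · rcases Finset.mem_union.1 hx with h | h
    exacts [absurd (Finset.mem_of_mem_erase h) hq, hs x h]

/-- representatives and codes -/
structure Cod {I : Type v} (𝒰 : Ultrafilter I) (π : (I → ZFSet.{u}) → ZFSet.{u})
    (δ : Ordinal.{u}) (rep : Ordinal.{u} → I → Ordinal.{u})
    (cd : Finset Ordinal.{u} → I → Ordinal.{u}) : Prop where
  rep_lt : ∀ γ i, rep γ i < δ
  ov_rep : ∀ γ < ov π fun _ => δ, ov π (rep γ) = γ
  cd_lt : ∀ s i, cd s i < δ
  mono : ∀ s t, (∀ x ∈ s, x < ov π fun _ => δ) → (∀ x ∈ t, x < ov π fun _ => δ) →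
    toColex s < toColex t → ov π (cd s) < ov π (cd t)
  surj : ∀ γ < ov π fun _ => δ, ∃ s, (∀ x ∈ s, x < ov π fun _ => δ) ∧ ov π (cd s) = γ
  hul_mem : ∀ s, ∀ x ∈ s, Hul 𝒰 δ (cd s) (rep x)
  hul_cd : ∀ g s, (∀ x ∈ s, Hul 𝒰 δ g (rep x)) → Hul 𝒰 δ g (cd s)

theorem exists_cod {I : Type v} {𝒰 : Ultrafilter I} [CountableInterFilter (𝒰 : Filter I)]
    {π : (I → ZFSet.{u}) → ZFSet.{u}} (h : Col 𝒰 π) {κ : Cardinal.{u}} (hκ : ℵ₀ < κ) :
    ∃ rep cd, Cod 𝒰 π κ.ord rep cd := by
  classical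
  obtain ⟨c, hc1, hc2, hc3⟩ := exists_code hκ
  have h0 : 0 < κ.ord := (isSuccLimit_ord hκ.le).bot_lt
  have hrep : ∀ γ, ∃ w : I → Ordinal.{u}, (∀ i, w i < κ.ord) ∧
      (γ < (ov π fun _ => κ.ord) → ov π w = γ) := by
    intro γ
    by_cases hγ : γ < ov π fun _ => κ.ord
    · obtain ⟨w, rfl⟩ := h.exists_ov hγ
      refine ⟨fun i => if w i < κ.ord then w i else 0, fun i => ?_, fun _ => ?_⟩
      · dsimp only
        split_ifs with hi
        exacts [hi, h0]
      · exact (h.ov_eq _ _).2 (((h.ov_lt _ _).1 hγ).mono fun i hi => if_pos hi)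
    · exact ⟨fun _ => 0, fun _ => h0, fun a => absurd a hγ⟩
  choose rep hr1 hr2 using hrep
  choose! d hd1 hd2 using hc3
  have hinj : Function.Injective c := fun s t e => by
    rcases lt_trichotomy (toColex s) (toColex t) with a | a | a
    exacts [absurd e (hc2 _ _ a).ne, toColex_inj.1 a, absurd e (hc2 _ _ a).ne']
  have hbd : ∀ (s : Finset Ordinal.{u}) i, ∀ a ∈ s.image fun x => rep x i, a < κ.ord := by
    intro s i a ha
    obtain ⟨x, -, rfl⟩ := Finset.mem_image.1 ha
    exact hr1 x i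
  have hget : ∀ a < κ.ord, ∀ n, (d a).toList.getD n 0 < κ.ord := by
    intro a ha n
    rcases lt_or_ge n (d a).toList.length with hn | hn
    · rw [List.getD_eq_getElem _ _ hn]
      exact hd1 a ha _ (Finset.mem_toList.1 (List.getElem_mem hn))
    · rwa [List.getD_eq_default _ _ hn]
  refine ⟨rep, fun s i => c (s.image fun x => rep x i), hr1, hr2, fun s i => hc1 _ (hbd s i),
    fun s t hs ht hst => ?_, fun γ hγ => ?_, fun s x hx => ?_, fun g s hs => ?_⟩
  · have hst' : ∀ x ∈ s ∪ t, x < ov π fun _ => κ.ord := fun x hx =>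
      (Finset.mem_union.1 hx).elim (hs x) (ht x)
    have : ∀ᶠ i in (𝒰 : Filter I), ∀ x ∈ s ∪ t, ∀ y ∈ s ∪ t, x < y → rep x i < rep y i := by
      simp only [eventually_all_finset, Ultrafilter.eventually_imp, eventually_const]
      intro x hx y hy hxy
      rwa [← h.ov_lt, hr2 x (hst' x hx), hr2 y (hst' y hy)]
    rw [h.ov_lt]
    refine this.mono fun i hi => hc2 _ _ ?_
    obtain ⟨a, hat, has, hlt⟩ := toColex_lt_toColex_iff_exists_forall_lt.1 hst
    refine toColex_lt_toColex_iff_exists_forall_lt.2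
      ⟨rep a i, Finset.mem_image_of_mem _ hat, fun hm => ?_, fun b hb hb' => ?_⟩
    · obtain ⟨x, hx, e⟩ := Finset.mem_image.1 hm
      rcases lt_trichotomy x a with p | p | p
      · exact (hi x (by simp [hx]) a (by simp [hat]) p).ne e
      · exact has (p ▸ hx)
      · exact (hi a (by simp [hat]) x (by simp [hx]) p).ne' e
    · obtain ⟨x, hx, rfl⟩ := Finset.mem_image.1 hb
      exact hi x (by simp [hx]) a (by simp [hat])
        (hlt x hx fun hx' => hb' (Finset.mem_image_of_mem _ hx'))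
  · obtain ⟨n, hn⟩ := ev_nat (𝒰 := 𝒰) (p := fun n i => (d (rep γ i)).toList.length = n)
      (Eventually.of_forall fun i => ⟨_, rfl⟩)
    have hlt : ∀ m, (ov π fun i => (d (rep γ i)).toList.getD m 0) < ov π fun _ => κ.ord :=
      fun m => (h.ov_lt _ _).2 (Eventually.of_forall fun i => hget _ (hr1 γ i) m)
    refine ⟨(Finset.range n).image fun m => ov π fun i => (d (rep γ i)).toList.getD m 0,
      fun x hx => ?_, ?_⟩
    · obtain ⟨m, -, rfl⟩ := Finset.mem_image.1 hx
      exact hlt m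
    · refine Eq.trans ?_ (hr2 γ hγ)
      rw [h.ov_eq]
      have : ∀ᶠ i in (𝒰 : Filter I), ∀ m,
          rep (ov π fun i => (d (rep γ i)).toList.getD m 0) i = (d (rep γ i)).toList.getD m 0 :=
        eventually_countable_forall.2 fun m => (h.ov_eq _ _).1 (hr2 _ (hlt m))
      refine (hn.and this).mono fun i hi => ?_
      refine Eq.trans (congrArg c ?_) (hd2 _ (hr1 γ i))
      ext a
      simp only [Finset.image_image, Finset.mem_image, Finset.mem_range, Function.comp, hi.2]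
      rw [← Finset.mem_toList, List.mem_iff_getElem, ← hi.1]
      constructor
      · rintro ⟨m, hm, rfl⟩
        exact ⟨m, hm, (List.getD_eq_getElem _ _ hm).symm⟩
      · rintro ⟨m, hm, rfl⟩
        exact ⟨m, hm, List.getD_eq_getElem _ _ hm⟩
  · obtain ⟨n, hn⟩ := ev_nat (𝒰 := 𝒰)
      (p := fun n i => rep x i = (d (c (s.image fun x => rep x i))).toList.getD n 0)
      (Eventually.of_forall fun i => by
        rw [hinj (hd2 _ (hc1 _ (hbd s i)))]
        obtain ⟨m, hm, e⟩ := List.mem_iff_getElem.1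
          (Finset.mem_toList.2 (Finset.mem_image_of_mem (fun x => rep x i) hx))
        exact ⟨m, by rw [List.getD_eq_getElem _ _ hm, e]⟩)
    exact ⟨fun a => (d a).toList.getD n 0, fun a ha => hget a ha n, hn⟩
  · choose! f hf1 hf2 using hs
    refine ⟨fun a => c (s.image fun x => f x a), fun a ha => hc1 _ fun b hb => ?_, ?_⟩
    · obtain ⟨x, hx, rfl⟩ := Finset.mem_image.1 hb
      exact hf1 x hx a ha
    · exact ((eventually_all_finset s).2 hf2).mono fun i hi =>
        congrArg c (Finset.image_congr fun x hx => hi x hx)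

end Pool.Agent.P.MP_19a1a5_lc
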