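import Pool.Agent.P.MP_19a1a5_lc.Defs

/-!
Collapsed ultrapowers indexed by a type, and the transfer lemmas.
-/

set_option autoImplicit false
set_option linter.unusedSectionVars false

namespace Pool.Agent.P.MP_19a1a5_lc

open ZFSet Filter Ordinal

universe u v

theorem mem_app {f x z : ZFSet.{u}} : z ∈ app f x ↔ ∃ y, pair x y ∈ f ∧ z ∈ y := by
  unfold app
  simp only [mem_sUnion, mem_sep]
  constructor
  · rintro ⟨y, ⟨-, h⟩, hz⟩
    exact ⟨y, h, hz⟩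
  · rintro ⟨y, h, hz⟩
    exact ⟨y, ⟨⟨{x, y}, ⟨pair x y, h, by simp [pair]⟩, by simp⟩, h⟩, hz⟩

theorem app_eq {Y f a b : ZFSet.{u}} (h : IsFn Y f) (hab : pair a b ∈ f) : app f a = b := by
  obtain ⟨a', ha', b', e⟩ := h.1 _ hab
  obtain ⟨rfl, rfl⟩ := pair_inj.1 e
  ext z
  rw [mem_app]
  constructor
  · rintro ⟨y, hy, hz⟩
    rwa [(h.2 a ha').unique hab hy]
  · exact fun hz => ⟨b, hab, hz⟩

/-- the graph of `F` on `Y` -/
noncomputable def gr (Y : ZFSet.{u}) (F : ZFSet.{u} → ZFSet.{u}) : ZFSet.{u} :=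
  range fun y : Y => pair y (F y)

theorem mem_gr {Y z : ZFSet.{u}} {F : ZFSet.{u} → ZFSet.{u}} :
    z ∈ gr Y F ↔ ∃ a ∈ Y, z = pair a (F a) := by
  unfold gr
  rw [mem_range]
  constructor
  · rintro ⟨y, rfl⟩
    exact ⟨y, y.2, rfl⟩
  · rintro ⟨a, ha, rfl⟩
    exact ⟨⟨a, ha⟩, rfl⟩

theorem isFn_gr (Y : ZFSet.{u}) (F : ZFSet.{u} → ZFSet.{u}) : IsFn Y (gr Y F) := by
  refine ⟨fun z hz => ?_, fun a ha => ⟨F a, mem_gr.2 ⟨a, ha, rfl⟩, fun b hb => ?_⟩⟩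
  · obtain ⟨a, ha, rfl⟩ := mem_gr.1 hz
    exact ⟨a, ha, _, rfl⟩
  · obtain ⟨a', -, e⟩ := mem_gr.1 hb
    obtain ⟨rfl, rfl⟩ := pair_inj.1 e
    rfl

theorem app_gr {Y a : ZFSet.{u}} (F : ZFSet.{u} → ZFSet.{u}) (ha : a ∈ Y) :
    app (gr Y F) a = F a :=
  app_eq (isFn_gr Y F) (mem_gr.2 ⟨a, ha, rfl⟩)

theorem prod_eq_gr (Y x : ZFSet.{u}) : prod Y {x} = gr Y fun _ => x := by
  ext z
  simp [mem_prod, mem_gr]

theorem pairSep_eq_gr (Y : ZFSet.{u}) : pairSep (· = ·) Y Y = gr Y fun y => y := by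
  ext z
  rw [mem_pairSep, mem_gr]
  constructor
  · rintro ⟨a, ha, b, -, rfl, rfl⟩
    exact ⟨a, ha, rfl⟩
  · rintro ⟨a, ha, rfl⟩
    exact ⟨a, ha, a, ha, rfl, rfl⟩

theorem sep_congr {Y : ZFSet.{u}} {p q : ZFSet.{u} → Prop} (h : ∀ y ∈ Y, p y ↔ q y) :
    ZFSet.sep p Y = ZFSet.sep q Y := by
  ext z
  simp only [mem_sep]
  exact and_congr_right (h z)

/-- `π` is the transitive collapse of the ultrapower of the universe by `𝒰`. -/
structure Col {I : Type v} (𝒰 : Ultrafilter I) (π : (I → ZFSet.{u}) → ZFSet.{u}) : Prop where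
  mem : ∀ f g, π f ∈ π g ↔ ∀ᶠ i in (𝒰 : Filter I), f i ∈ g i
  eq : ∀ f g, π f = π g ↔ ∀ᶠ i in (𝒰 : Filter I), f i = g i
  tr : ∀ g z, z ∈ π g → ∃ f, π f = z

theorem ev_choice {I : Type v} {A : Type*} [Nonempty A] {F : Filter I} {Q : I → A → Prop}
    (h : ∀ᶠ i in F, ∃ z, Q i z) : ∃ f : I → A, ∀ᶠ i in F, Q i (f i) :=
  ⟨fun i => Classical.epsilon (Q i), h.mono fun _ hi => Classical.epsilon_spec hi⟩

theorem ev_forall {I : Type v} {A : Type*} [Nonempty A] {𝒰 : Ultrafilter I} {Q : I → A → Prop}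
    (h : ∀ f : I → A, ∀ᶠ i in (𝒰 : Filter I), Q i (f i)) : ∀ᶠ i in (𝒰 : Filter I), ∀ z, Q i z := by
  by_contra hn
  rw [← Ultrafilter.eventually_not] at hn
  obtain ⟨f, hf⟩ := ev_choice (Q := fun i z => ¬ Q i z) (hn.mono fun _ hi => not_forall.1 hi)
  obtain ⟨i, hi⟩ := (hf.and (h f)).exists
  exact hi.1 hi.2

namespace Col

variable {I : Type v} {𝒰 : Ultrafilter I} {π : (I → ZFSet.{u}) → ZFSet.{u}} (h : Col 𝒰 π)
include h

theorem congr {f g : I → ZFSet.{u}} (e : ∀ᶠ i in (𝒰 : Filter I), f i = g i) : π f = π g :=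
  (h.eq f g).2 e

theorem ext' {f : I → ZFSet.{u}} {x : ZFSet.{u}} (hx : ∀ z ∈ x, ∃ g, π g = z)
    (e : ∀ g, π g ∈ x ↔ ∀ᶠ i in (𝒰 : Filter I), g i ∈ f i) : π f = x := by
  ext z
  constructor
  · intro hz
    obtain ⟨g, rfl⟩ := h.tr _ _ hz
    exact (e g).2 ((h.mem _ _).1 hz)
  · intro hz
    obtain ⟨g, rfl⟩ := hx z hz
    exact (h.mem _ _).2 ((e g).1 hz)

theorem sep (g : I → ZFSet.{u}) {P : ZFSet.{u} → Prop} {Q : I → ZFSet.{u} → Prop}
    (hP : ∀ f, π f ∈ π g → (P (π f) ↔ ∀ᶠ i in (𝒰 : Filter I), Q i (f i))) :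
    π (fun i => ZFSet.sep (Q i) (g i)) = ZFSet.sep P (π g) := by
  refine h.ext' (fun z hz => h.tr g z (mem_sep.1 hz).1) fun f => ?_
  simp only [mem_sep, eventually_and, ← h.mem]
  exact and_congr_right (hP f)

theorem subset (f g : I → ZFSet.{u}) : π f ⊆ π g ↔ ∀ᶠ i in (𝒰 : Filter I), f i ⊆ g i := by
  constructor
  · intro hs
    by_contra hn
    rw [← Ultrafilter.eventually_not] at hn
    have : ∀ᶠ i in (𝒰 : Filter I), ∃ z, z ∈ f i ∧ z ∉ g i := hn.mono fun i hi => by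
      by_contra hc
      exact hi fun z hz => by_contra fun hz' => hc ⟨z, hz, hz'⟩
    obtain ⟨z, hz⟩ := ev_choice this
    have h1 := (h.mem _ _).1 (hs ((h.mem z f).2 (hz.mono fun _ hi => hi.1)))
    obtain ⟨i, hi⟩ := (hz.and h1).exists
    exact hi.1.2 hi.2
  · intro hs z hz
    obtain ⟨k, rfl⟩ := h.tr _ _ hz
    exact (h.mem _ _).2 ((((h.mem _ _).1 hz).and hs).mono fun i hi => hi.2 hi.1)

theorem empty : π (fun _ => ∅) = ∅ :=
  h.ext' (by simp) fun g => by simp [𝒰.neBot.ne]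

theorem insert (f g : I → ZFSet.{u}) :
    π (fun i => Insert.insert (f i) (g i)) = Insert.insert (π f) (π g) := by
  refine h.ext' (fun z hz => ?_) fun k => ?_
  · rcases mem_insert_iff.1 hz with rfl | hz
    exacts [⟨f, rfl⟩, h.tr _ _ hz]
  · simp only [mem_insert_iff, Ultrafilter.eventually_or, h.mem, h.eq]

theorem singleton (f : I → ZFSet.{u}) : π (fun i => {f i}) = {π f} := by
  refine h.ext' (fun z hz => ⟨f, (mem_singleton.1 hz).symm⟩) fun k => ?_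
  simp only [mem_singleton, h.eq]

theorem pair (f g : I → ZFSet.{u}) : π (fun i => pair (f i) (g i)) = pair (π f) (π g) := by
  unfold ZFSet.pair
  rw [h.insert, h.singleton, h.singleton, h.insert, h.singleton]

theorem inter (f g : I → ZFSet.{u}) : π (fun i => f i ∩ g i) = π f ∩ π g := by
  refine h.ext' (fun z hz => h.tr _ _ (mem_inter.1 hz).1) fun k => ?_
  simp only [mem_inter, eventually_and, h.mem]

theorem sdiff (f g : I → ZFSet.{u}) : π (fun i => f i \ g i) = π f \ π g := by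
  refine h.ext' (fun z hz => h.tr _ _ (ZFSet.mem_sdiff.1 hz).1) fun k => ?_
  simp only [ZFSet.mem_sdiff, eventually_and, h.mem, Ultrafilter.eventually_not]

theorem tr_snd {g : I → ZFSet.{u}} {a b : ZFSet.{u}} (hab : ZFSet.pair a b ∈ π g) :
    ∃ f, π f = b := by
  obtain ⟨p, hp⟩ := h.tr _ _ hab
  obtain ⟨q, hq⟩ := h.tr p {a, b} (by rw [hp]; simp [ZFSet.pair])
  exact h.tr q b (by rw [hq]; simp)

theorem capp (f x : I → ZFSet.{u}) : π (fun i => app (f i) (x i)) = app (π f) (π x) := by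
  refine h.ext' (fun z hz => ?_) fun k => ?_
  · obtain ⟨y, hy, hz⟩ := mem_app.1 hz
    obtain ⟨y', rfl⟩ := h.tr_snd hy
    exact h.tr _ _ hz
  · simp only [mem_app]
    constructor
    · rintro ⟨y, hy, hz⟩
      obtain ⟨y', rfl⟩ := h.tr_snd hy
      rw [← h.pair, h.mem] at hy
      rw [h.mem] at hz
      exact (hy.and hz).mono fun i hi => ⟨_, hi⟩
    · intro hk
      obtain ⟨y, hy⟩ := ev_choice hk
      refine ⟨π y, ?_, (h.mem _ _).2 (hy.mono fun _ hi => hi.2)⟩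
      rw [← h.pair, h.mem]
      exact hy.mono fun _ hi => hi.1

theorem mem_gr {Y : I → ZFSet.{u}} {Φ : I → ZFSet.{u} → ZFSet.{u}} {z : ZFSet.{u}} :
    z ∈ π (fun i => gr (Y i) (Φ i)) ↔
      ∃ a, π a ∈ π Y ∧ z = ZFSet.pair (π a) (π fun i => Φ i (a i)) := by
  constructor
  · intro hz
    obtain ⟨k, rfl⟩ := h.tr _ _ hz
    have h1 := (h.mem _ _).1 hz
    simp only [MP_19a1a5_lc.mem_gr] at h1
    obtain ⟨a, ha⟩ := ev_choice h1
    refine ⟨a, (h.mem _ _).2 (ha.mono fun _ hi => hi.1), ?_⟩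
    rw [← h.pair]
    exact h.congr (ha.mono fun _ hi => hi.2)
  · rintro ⟨a, ha, rfl⟩
    rw [← h.pair, h.mem]
    exact ((h.mem _ _).1 ha).mono fun i hi => MP_19a1a5_lc.mem_gr.2 ⟨_, hi, rfl⟩

theorem isFn_gr (Y : I → ZFSet.{u}) (Φ : I → ZFSet.{u} → ZFSet.{u}) :
    IsFn (π Y) (π fun i => gr (Y i) (Φ i)) := by
  refine ⟨fun z hz => ?_, fun a ha => ?_⟩
  · obtain ⟨a, ha, rfl⟩ := h.mem_gr.1 hz
    exact ⟨_, ha, _, rfl⟩
  · obtain ⟨a, rfl⟩ := h.tr _ _ ha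
    refine ⟨π fun i => Φ i (a i), h.mem_gr.2 ⟨a, ha, rfl⟩, fun b hb => ?_⟩
    obtain ⟨a', -, e⟩ := h.mem_gr.1 hb
    obtain ⟨e1, rfl⟩ := pair_inj.1 e
    exact h.congr (((h.eq _ _).1 e1).mono fun i hi => by rw [hi])

theorem app_gr {Y a : I → ZFSet.{u}} (Φ : I → ZFSet.{u} → ZFSet.{u}) (ha : π a ∈ π Y) :
    app (π fun i => gr (Y i) (Φ i)) (π a) = π fun i => Φ i (a i) :=
  app_eq (h.isFn_gr Y Φ) (h.mem_gr.2 ⟨a, ha, rfl⟩)

theorem prod_const (Y f : I → ZFSet.{u}) :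
    prod (π Y) {π f} = π fun i => gr (Y i) fun _ => f i := by
  ext z
  rw [h.mem_gr, mem_prod]
  constructor
  · rintro ⟨a, ha, b, hb, rfl⟩
    obtain ⟨a, rfl⟩ := h.tr _ _ ha
    exact ⟨a, ha, by rw [mem_singleton.1 hb]⟩
  · rintro ⟨a, ha, rfl⟩
    exact ⟨_, ha, _, mem_singleton.2 rfl, rfl⟩

theorem isTransitive {f : I → ZFSet.{u}} (hf : ∀ᶠ i in (𝒰 : Filter I), (f i).IsTransitive) :
    (π f).IsTransitive := by
  intro y hy
  obtain ⟨y, rfl⟩ := h.tr _ _ hy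
  rw [h.subset]
  exact (hf.and ((h.mem _ _).1 hy)).mono fun i hi => hi.1 _ hi.2

theorem isOrdinal (g : I → Ordinal.{u}) : (π fun i => (g i).toZFSet).IsOrdinal := by
  rw [isOrdinal_iff_forall_mem_isTransitive]
  refine ⟨h.isTransitive (Eventually.of_forall fun i => (isOrdinal_toZFSet _).isTransitive),
    fun y hy => ?_⟩
  obtain ⟨y, rfl⟩ := h.tr _ _ hy
  exact h.isTransitive (((h.mem _ _).1 hy).mono fun i hi =>
    ((isOrdinal_toZFSet _).mem hi).isTransitive)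

end Col

/-- the ordinal represented by `g` -/
noncomputable def ov {I : Type v} (π : (I → ZFSet.{u}) → ZFSet.{u}) (g : I → Ordinal.{u}) :
    Ordinal.{u} :=
  (π fun i => (g i).toZFSet).rank

namespace Col

variable {I : Type v} {𝒰 : Ultrafilter I} {π : (I → ZFSet.{u}) → ZFSet.{u}} (h : Col 𝒰 π)
include h

theorem ov_toZFSet (g : I → Ordinal.{u}) : (ov π g).toZFSet = π fun i => (g i).toZFSet :=
  (h.isOrdinal g).toZFSet_rank_eq

theorem ov_lt (f g : I → Ordinal.{u}) : ov π f < ov π g ↔ ∀ᶠ i in (𝒰 : Filter I), f i < g i := by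
  rw [← toZFSet_mem_toZFSet_iff, h.ov_toZFSet, h.ov_toZFSet, h.mem]
  simp only [toZFSet_mem_toZFSet_iff]

theorem ov_eq (f g : I → Ordinal.{u}) : ov π f = ov π g ↔ ∀ᶠ i in (𝒰 : Filter I), f i = g i := by
  rw [← toZFSet_injective.eq_iff, h.ov_toZFSet, h.ov_toZFSet, h.eq]
  simp only [toZFSet_injective.eq_iff]

theorem ov_le (f g : I → Ordinal.{u}) : ov π f ≤ ov π g ↔ ∀ᶠ i in (𝒰 : Filter I), f i ≤ g i := by
  rw [← not_lt, h.ov_lt, ← Ultrafilter.eventually_not]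
  simp only [not_lt]

theorem exists_ord {f : I → ZFSet.{u}} {g : I → Ordinal.{u}}
    (hf : ∀ᶠ i in (𝒰 : Filter I), f i ∈ (g i).toZFSet) :
    ∃ k : I → Ordinal.{u}, ∀ᶠ i in (𝒰 : Filter I), k i < g i ∧ (k i).toZFSet = f i :=
  ev_choice (hf.mono fun _ hi => mem_toZFSet_iff.1 hi)

theorem exists_ov {g : I → Ordinal.{u}} {γ : Ordinal.{u}} (hγ : γ < ov π g) :
    ∃ k : I → Ordinal.{u}, ov π k = γ := by
  rw [← toZFSet_mem_toZFSet_iff, h.ov_toZFSet] at hγ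
  obtain ⟨f, hf⟩ := h.tr _ _ hγ
  rw [← hf, h.mem] at hγ
  obtain ⟨k, hk⟩ := h.exists_ord hγ
  refine ⟨k, toZFSet_injective ?_⟩
  rw [h.ov_toZFSet, ← hf]
  exact h.congr (hk.mono fun _ hi => hi.2)

/-- A set whose members lie in the ultrapower and whose membership relation transfers is an
element of the ultrapower. -/
theorem exists_eq {S : ZFSet.{u}} (hS : ∀ z ∈ S, ∃ f, π f = z) {Q : I → ZFSet.{u} → Prop}
    (hQ : ∀ f, π f ∈ S ↔ ∀ᶠ i in (𝒰 : Filter I), Q i (f i)) : ∃ f, π f = S := by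
  choose r hr using hS
  refine ⟨fun i => ZFSet.sep (Q i) (range fun z : S => r z z.2 i),
    h.ext' (fun z hz => ⟨_, hr z hz⟩) fun g => ?_⟩
  simp only [mem_sep, eventually_and, ← hQ, mem_range]
  refine ⟨fun hg => ⟨?_, hg⟩, fun hg => hg.2⟩
  exact ((h.eq _ _).1 (hr _ hg)).mono fun i hi => ⟨⟨_, hg⟩, hi⟩

/-- the collapse is unique -/
theorem unique {π' : (I → ZFSet.{u}) → ZFSet.{u}} (h' : Col 𝒰 π') (f : I → ZFSet.{u}) :
    π f = π' f := by
  suffices H : ∀ x f, π f = x → π f = π' f from H _ f rfl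
  intro x
  induction x using ZFSet.inductionOn with
  | h x ih =>
    rintro f rfl
    ext z
    constructor
    · intro hz
      obtain ⟨g, rfl⟩ := h.tr _ _ hz
      rw [ih _ hz g rfl]
      exact (h'.mem _ _).2 ((h.mem _ _).1 hz)
    · intro hz
      obtain ⟨g, rfl⟩ := h'.tr _ _ hz
      have := (h.mem _ _).2 ((h'.mem _ _).1 hz)
      rwa [ih _ this g rfl] at this

end Col

end Pool.Agent.P.MP_19a1a5_lc
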