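import Pool.Agent.P.MP_19a1a5_lc.Key

/-!
Computing an interval of the extender from a small directed family of internal ultrafilters.
-/

set_option autoImplicit false
set_option linter.unusedSectionVars false

namespace Pool.Agent.P.MP_19a1a5_lc

open ZFSet Filter Ordinal

universe u v

attribute [local irreducible] app gr ZFSet.sep ZFSet.pair

theorem exists_rank {A : Type v} {r : A → A → Prop} (hwf : WellFounded r)
    (hs : ∀ x, Small.{u} {y // r y x}) (c : Ordinal.{u}) : ∃ ρ : A → Ordinal.{u}, ∀ x,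
      c ≤ ρ x ∧ (∀ y, r y x → ρ y < ρ x) ∧ ∀ η, c ≤ η → η < ρ x → ∃ y, r y x ∧ η ≤ ρ y := by
  let ρ : A → Ordinal.{u} := hwf.fix fun x ih => max c (⨆ y : {y // r y x}, ih y.1 y.2 + 1)
  have hρ : ∀ x, ρ x = max c (⨆ y : {y // r y x}, ρ y.1 + 1) := fun x => hwf.fix_eq _ x
  refine ⟨ρ, fun x => ?_⟩
  have := hs x
  refine ⟨by rw [hρ]; exact le_max_left _ _, fun y hy => ?_, fun η h1 h2 => ?_⟩
  · rw [hρ x]
    refine lt_max_of_lt_right ((lt_add_one _).trans_le ?_)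
    exact Ordinal.le_iSup (fun y : {y // r y x} => ρ y.1 + 1) ⟨y, hy⟩
  · rw [hρ x, lt_max_iff] at h2
    obtain ⟨y, hy⟩ := Ordinal.lt_iSup_iff.1 (h2.resolve_left h1.not_gt)
    exact ⟨y.1, y.2, Order.lt_add_one_iff.1 hy⟩

/-- `w` is a function of `g` almost everywhere -/
def Hul {I : Type v} (𝒰 : Ultrafilter I) (δ : Ordinal.{u}) (g w : I → Ordinal.{u}) : Prop :=
  ∃ f : Ordinal.{u} → Ordinal.{u}, (∀ a < δ, f a < δ) ∧ ∀ᶠ i in (𝒰 : Filter I), w i = f (g i)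

/-- the data of a critical point -/
structure Crit {I : Type v} (𝒰 : Ultrafilter I) (π : (I → ZFSet.{u}) → ZFSet.{u})
    (δ : Ordinal.{u}) (k : I → Ordinal.{u}) : Prop where
  col : Col 𝒰 π
  hk : ov π k = δ
  lt : ∀ i, k i < δ
  fix : ∀ a < δ, (π fun _ => a.toZFSet) = a.toZFSet

namespace Crit

variable {I : Type v} {𝒰 : Ultrafilter I} {π : (I → ZFSet.{u}) → ZFSet.{u}} {δ : Ordinal.{u}}
  {k : I → Ordinal.{u}} (C : Crit 𝒰 π δ k)
include C

theorem ov_const {a : Ordinal.{u}} (ha : a < δ) : (ov π fun _ => a) = a :=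
  toZFSet_injective (by rw [C.col.ov_toZFSet, C.fix a ha])

theorem lt_k {a : Ordinal.{u}} (ha : a < δ) : ∀ᶠ i in (𝒰 : Filter I), a < k i := by
  rw [← C.col.ov_lt (fun _ => a) k, C.ov_const ha, C.hk]
  exact ha

theorem const_of_lt {e : I → Ordinal.{u}} (he : ∀ᶠ i in (𝒰 : Filter I), e i < k i) :
    ∃ a < δ, ∀ᶠ i in (𝒰 : Filter I), e i = a := by
  rw [← C.col.ov_lt, C.hk] at he
  exact ⟨_, he, (C.col.ov_eq e fun _ => ov π e).1 (C.ov_const he).symm⟩

theorem pi_k : (π fun i => (k i).toZFSet) = δ.toZFSet := by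
  rw [← C.col.ov_toZFSet, C.hk]

theorem const_of_mem {y : I → ZFSet.{u}} (hy : π y ∈ δ.toZFSet) :
    ∃ a < δ, π y = a.toZFSet ∧ ∀ᶠ i in (𝒰 : Filter I), y i = a.toZFSet := by
  obtain ⟨a, ha, e⟩ := mem_toZFSet_iff.1 hy
  exact ⟨a, ha, e.symm, (C.col.eq _ _).1 (e.symm.trans (C.fix a ha).symm)⟩

theorem exists_sub {X : ZFSet.{u}} (hX : X ⊆ δ.toZFSet) : ∃ x, π x = X := by
  refine ⟨fun i => ZFSet.sep (· ∈ X) (k i).toZFSet, ?_⟩
  rw [C.col.sep (fun i => (k i).toZFSet) (P := (· ∈ X)) fun f hf => ?_, C.pi_k]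
  · ext z
    rw [mem_sep]
    exact ⟨fun a => a.2, fun a => ⟨hX a, a⟩⟩
  · rw [C.pi_k] at hf
    obtain ⟨a, -, e1, e2⟩ := C.const_of_mem hf
    rw [e1, eventually_congr (e2.mono fun i hi => by rw [hi])]
    simp

theorem pi_gr {f : Ordinal.{u} → Ordinal.{u}} (hf : ∀ a < δ, f a < δ) :
    (π fun i => gr (k i).toZFSet fun z => (f z.rank).toZFSet) =
      gr δ.toZFSet fun z => (f z.rank).toZFSet := by
  ext z
  rw [C.col.mem_gr (Y := fun i => (k i).toZFSet) (Φ := fun _ z => (f z.rank).toZFSet), mem_gr,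
    C.pi_k]
  constructor
  · rintro ⟨y, hy, rfl⟩
    obtain ⟨a, ha, e1, e2⟩ := C.const_of_mem hy
    refine ⟨_, hy, ?_⟩
    rw [e1, rank_toZFSet, ← C.fix _ (hf a ha)]
    congr 1
    exact C.col.congr (e2.mono fun i hi => by rw [hi, rank_toZFSet])
  · rintro ⟨y, hy, rfl⟩
    obtain ⟨a, ha, rfl⟩ := mem_toZFSet_iff.1 hy
    refine ⟨fun _ => a.toZFSet, by rwa [C.fix a ha], ?_⟩
    simp only [rank_toZFSet]
    rw [C.fix a ha, C.fix _ (hf a ha)]

theorem gr_sub {f : Ordinal.{u} → Ordinal.{u}} (hf : ∀ a < δ, f a < δ) :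
    ∀ᶠ i in (𝒰 : Filter I), (gr (k i).toZFSet fun z => (f z.rank).toZFSet) ⊆
      prod (k i).toZFSet (k i).toZFSet := by
  have : ∀ᶠ i in (𝒰 : Filter I), ∀ a, a < k i → f a < k i := by
    refine ev_forall fun e => ?_
    rw [Ultrafilter.eventually_imp]
    intro he
    obtain ⟨a, ha, e1⟩ := C.const_of_lt he
    exact (e1.and (C.lt_k (hf a ha))).mono fun i hi => by rw [hi.1]; exact hi.2
  refine this.mono fun i hi z hz => ?_
  obtain ⟨y, hy, rfl⟩ := mem_gr.1 hz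
  obtain ⟨a, ha, rfl⟩ := mem_toZFSet_iff.1 hy
  rw [pair_mem_prod, rank_toZFSet]
  exact ⟨hy, toZFSet_mem_toZFSet_iff.2 (hi a ha)⟩

theorem der_rel {g : I → Ordinal.{u}} (hg : ∀ i, g i < δ) (hD : Der 𝒰 π δ g)
    (R : Ordinal.{u} → ZFSet.{u} → ZFSet.{u} → Prop)
    (hR : ∀ a < δ, ∀ x x', R a (π x) (π x') ↔ ∀ᶠ i in (𝒰 : Filter I), R a (x i) (x' i)) :
    ∃ Q : I → ZFSet.{u} → ZFSet.{u} → Prop, ∀ x x',
      (∀ᶠ i in (𝒰 : Filter I), R (g i) (π x) (π x')) ↔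
        ∀ᶠ i in (𝒰 : Filter I), Q i (x i) (x' i) := by
  obtain ⟨Q, hQ⟩ := hD
  refine ⟨fun i p q => Q i (ZFSet.sep (fun z => R z.rank p q) (k i).toZFSet), fun x x' => ?_⟩
  have e : (π fun i => ZFSet.sep (fun z => R z.rank (x i) (x' i)) (k i).toZFSet) =
      ZFSet.sep (fun z => R z.rank (π x) (π x')) δ.toZFSet := by
    rw [C.col.sep (fun i => (k i).toZFSet) (P := fun z => R z.rank (π x) (π x')) fun f hf => ?_,
      C.pi_k]
    rw [C.pi_k] at hf
    obtain ⟨a, ha, e1, e2⟩ := C.const_of_mem hf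
    rw [e1, rank_toZFSet, hR a ha]
    exact eventually_congr (e2.mono fun i hi => by rw [hi, rank_toZFSet])
  rw [← hQ _ (by rw [e]; exact sep_subset), e]
  simp only [mem_sep, rank_toZFSet, toZFSet_mem_toZFSet_iff, hg, true_and]

theorem comp (g : Ordinal.{u} → I → Ordinal.{u}) (hg : ∀ a i, g a i < δ)
    (hder : ∀ a, Der 𝒰 π δ (g a))
    (hdir : ∀ a b, ∃ c, Hul 𝒰 δ (g c) (g a) ∧ Hul 𝒰 δ (g c) (g b)) {γ0 γ1 : Ordinal.{u}}
    (h01 : γ0 < γ1)
    (hcov : ∀ v, γ0 ≤ v → v < γ1 → ∃ a < δ, ∃ w, ov π w = v ∧ Hul 𝒰 δ (g a) w) :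
    (∃ Q : I → ZFSet.{u} → ZFSet.{u} → Prop, ∀ x y : I → ZFSet.{u}, π x ⊆ δ.toZFSet →
      π y ∈ γ1.toZFSet → π y ∉ γ0.toZFSet → ((∀ᶠ i in (𝒰 : Filter I), y i ∈ π x) ↔
        ∀ᶠ i in (𝒰 : Filter I), Q i (x i) (y i))) ∧
    ∃ ρ : I → Ordinal.{u} × ZFSet.{u} → Ordinal.{u}, ∀ w, γ0 ≤ ov π w → ov π w < γ1 →
      ∀ᶠ i in (𝒰 : Filter I), ∃ z : Ordinal.{u} × ZFSet.{u}, z.1 < k i ∧
        z.2 ⊆ prod (k i).toZFSet (k i).toZFSet ∧ ρ i z = w i := by
  have h := C.col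
  let val : Ordinal.{u} → ZFSet.{u} → ZFSet.{u} := fun a φ => π fun i => app φ (g a i).toZFSet
  have hL : ∀ a b, ∃ Q : I → ZFSet.{u} → ZFSet.{u} → Prop, ∀ x x',
      val a (π x) ∈ val b (π x') ↔ ∀ᶠ i in (𝒰 : Filter I), Q i (x i) (x' i) := by
    intro a b
    obtain ⟨c, ⟨e, he, e1⟩, ⟨e', he', e2⟩⟩ := hdir a b
    obtain ⟨Q, hQ⟩ := C.der_rel (hg c) (hder c)
      (fun t p q => app p (e t).toZFSet ∈ app q (e' t).toZFSet) fun t ht x x' => by
        rw [← h.mem, h.capp x fun _ => (e t).toZFSet, h.capp x' fun _ => (e' t).toZFSet,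
          C.fix _ (he t ht), C.fix _ (he' t ht)]
    refine ⟨Q, fun x x' => ?_⟩
    rw [← hQ, h.mem]
    exact eventually_congr ((e1.and e2).mono fun i hi => by rw [hi.1, hi.2])
  have hE : ∀ a, ∃ Q : I → ZFSet.{u} → ZFSet.{u} → Prop, ∀ x x',
      val a (π x) ∈ (π fun _ => π x') ↔ ∀ᶠ i in (𝒰 : Filter I), Q i (x i) (x' i) := by
    intro a
    obtain ⟨Q, hQ⟩ := C.der_rel (hg a) (hder a) (fun t p q => app p t.toZFSet ∈ q)
      fun t ht x x' => by rw [← h.mem, h.capp x fun _ => t.toZFSet, C.fix _ ht]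
    exact ⟨Q, fun x x' => by rw [← hQ, h.mem]⟩
  choose QL hQL using hL
  choose QE hQE using hE
  let B : I → Ordinal.{u} × ZFSet.{u} → Prop := fun i z =>
    z.1 < k i ∧ z.2 ⊆ prod (k i).toZFSet (k i).toZFSet
  have hrep : ∀ v, γ0 ≤ v → v < γ1 → ∃ (a : Ordinal.{u}) (x : I → ZFSet.{u}),
      (∀ᶠ i in (𝒰 : Filter I), B i (a, x i)) ∧ val a (π x) = v.toZFSet := by
    intro v h0 h1
    obtain ⟨a, ha, w, rfl, f, hf, e⟩ := hcov v h0 h1
    refine ⟨a, fun i => gr (k i).toZFSet fun z => (f z.rank).toZFSet,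
      (C.lt_k ha).and (C.gr_sub hf), ?_⟩
    rw [C.pi_gr hf, h.ov_toZFSet]
    exact h.congr (e.mono fun i hi => by
      rw [app_gr _ (toZFSet_mem_toZFSet_iff.2 (hg a i)), rank_toZFSet, hi])
  obtain ⟨a0, x0, -, hx0⟩ := hrep γ0 le_rfl h01
  let r : I → Ordinal.{u} × ZFSet.{u} → Ordinal.{u} × ZFSet.{u} → Prop := fun i y x =>
    B i y ∧ QL y.1 x.1 i y.2 x.2 ∧ ¬ QL y.1 a0 i y.2 (x0 i)
  have hr : ∀ (y x : I → Ordinal.{u} × ZFSet.{u}) (b : Ordinal.{u}),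
      (∀ᶠ i in (𝒰 : Filter I), (x i).1 = b) → (∀ᶠ i in (𝒰 : Filter I), r i (y i) (x i)) →
      ∃ a, (∀ᶠ i in (𝒰 : Filter I), (y i).1 = a) ∧
        val a (π fun i => (y i).2) ∈ val b (π fun i => (x i).2) ∧
        val a (π fun i => (y i).2) ∉ γ0.toZFSet := by
    intro y x b hb hy
    obtain ⟨a, -, ha⟩ := C.const_of_lt (e := fun i => (y i).1) (hy.mono fun i hi => hi.1.1)
    refine ⟨a, ha, (hQL _ _ _ _).2 ?_, ?_⟩
    · exact ((ha.and hb).and hy).mono fun i hi => by rw [← hi.1.1, ← hi.1.2]; exact hi.2.2.1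
    · rw [← hx0, hQL, ← Ultrafilter.eventually_not]
      exact (ha.and hy).mono fun i hi => by rw [← hi.1]; exact hi.2.2.2
  have hr' : ∀ (a b : Ordinal.{u}) (y x : I → ZFSet.{u}),
      (∀ᶠ i in (𝒰 : Filter I), B i (a, y i)) → val a (π y) ∈ val b (π x) →
      val a (π y) ∉ γ0.toZFSet → ∀ᶠ i in (𝒰 : Filter I), r i (a, y i) (b, x i) := by
    intro a b y x h1 h2 h3
    rw [hQL] at h2
    rw [← hx0, hQL, ← Ultrafilter.eventually_not] at h3
    exact h1.and (h2.and h3)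
  have hwf : ∀ᶠ i in (𝒰 : Filter I), WellFounded (r i) := by
    by_contra hn
    rw [← Ultrafilter.eventually_not] at hn
    have h1 : ∀ᶠ i in (𝒰 : Filter I), ∃ s : ℕ → Ordinal.{u} × ZFSet.{u},
        ∀ n, r i (s (n + 1)) (s n) := hn.mono fun i hi => by
      rw [wellFounded_iff_isEmpty_descending_chain, not_isEmpty_iff] at hi
      obtain ⟨s, hs⟩ := hi
      exact ⟨s, hs⟩
    obtain ⟨s, hs⟩ := ev_choice h1
    have h2 : ∀ n, ∃ a, ∀ᶠ i in (𝒰 : Filter I), (s i (n + 1)).1 = a := fun n => by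
      obtain ⟨a, -, ha⟩ := C.const_of_lt (e := fun i => (s i (n + 1)).1)
        (hs.mono fun i hi => (hi n).1.1)
      exact ⟨a, ha⟩
    choose a ha using h2
    have h3 : ∀ n, val (a (n + 1)) (π fun i => (s i (n + 2)).2) ∈
        val (a n) (π fun i => (s i (n + 1)).2) := fun n => by
      obtain ⟨b, hb, h4, -⟩ := hr (fun i => s i (n + 2)) (fun i => s i (n + 1)) _ (ha n)
        (hs.mono fun i hi => hi (n + 1))
      obtain ⟨i, hi⟩ := (hb.and (ha (n + 1))).exists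
      rwa [← hi.2, hi.1]
    exact (wellFounded_iff_isEmpty_descending_chain.1 mem_wf).false
      ⟨fun n => val (a n) (π fun i => (s i (n + 1)).2), h3⟩
  obtain ⟨c0, hc0⟩ : ∃ c0, ov π c0 = γ0 := by
    obtain ⟨-, -, w, hw, -⟩ := hcov γ0 le_rfl h01
    exact ⟨w, hw⟩
  have hρ : ∀ᶠ i in (𝒰 : Filter I), ∃ ρ : Ordinal.{u} × ZFSet.{u} → Ordinal.{u}, ∀ x,
      c0 i ≤ ρ x ∧ (∀ y, r i y x → ρ y < ρ x) ∧
        ∀ η, c0 i ≤ η → η < ρ x → ∃ y, r i y x ∧ η ≤ ρ y := hwf.mono fun i hi => by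
    refine exists_rank hi (fun x => ?_) _
    refine small_of_injective (β := Set.Iio (k i) × powerset (prod (k i).toZFSet (k i).toZFSet))
      (f := fun y => (⟨y.1.1, y.2.1.1⟩, ⟨y.1.2, ZFSet.mem_powerset.2 y.2.1.2⟩)) ?_
    intro y y' e
    simp only [Prod.mk.injEq, Subtype.mk.injEq] at e
    exact Subtype.ext (Prod.ext e.1 e.2)
  obtain ⟨ρ, hρ⟩ := ev_choice hρ
  have hlt : ∀ y x : I → Ordinal.{u} × ZFSet.{u}, (∀ᶠ i in (𝒰 : Filter I), r i (y i) (x i)) →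
      (ov π fun i => ρ i (y i)) < ov π fun i => ρ i (x i) := fun y x hy =>
    (h.ov_lt _ _).2 ((hy.and hρ).mono fun i hi => (hi.2 _).2.1 _ hi.1)
  have main : ∀ v, γ0 ≤ v → v < γ1 → ∀ (x : I → Ordinal.{u} × ZFSet.{u}) (b : Ordinal.{u}),
      (∀ᶠ i in (𝒰 : Filter I), (x i).1 = b) → val b (π fun i => (x i).2) = v.toZFSet →
      (ov π fun i => ρ i (x i)) = v := by
    intro v
    induction v using WellFoundedLT.induction with
    | ind v ih =>
      intro h0 h1 x b hb hx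
      have hx' : ∀ᶠ i in (𝒰 : Filter I), (b, (x i).2) = x i :=
        hb.mono fun i hi => by rw [← hi]
      have g0 : γ0 ≤ ov π fun i => ρ i (x i) := by
        rw [← hc0, h.ov_le]
        exact hρ.mono fun i hi => (hi _).1
      refine le_antisymm (not_lt.1 fun hv => ?_) (not_lt.1 fun hv => ?_)
      · obtain ⟨w, rfl⟩ := h.exists_ov hv
        rw [h.ov_lt] at hv
        have h0' := h0
        rw [← hc0, h.ov_le] at h0'
        obtain ⟨y, hy⟩ := ev_choice (((h0'.and hv).and hρ).mono fun i hi =>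
          (hi.2 _).2.2 _ hi.1.1 hi.1.2)
        obtain ⟨a, ha, m1, m2⟩ := hr y x b hb (hy.mono fun i hi => hi.1)
        rw [hx] at m1
        obtain ⟨v', hv', e⟩ := mem_toZFSet_iff.1 m1
        rw [← e, toZFSet_mem_toZFSet_iff, not_lt] at m2
        have := ih v' hv' m2 (hv'.trans h1) y a ha e.symm
        have h5 := (h.ov_le w fun i => ρ i (y i)).2 (hy.mono fun i hi => hi.2)
        rw [this] at h5
        exact h5.not_gt hv'
      · obtain ⟨a, y, hy, e⟩ := hrep _ g0 (hv.trans h1)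
        have h5 := ih _ hv g0 (hv.trans h1) (fun i => (a, y i)) a
          (Eventually.of_forall fun _ => rfl) e
        have h6 := hr' a b y (fun i => (x i).2) hy
          (by rw [e, hx]; exact toZFSet_mem_toZFSet_iff.2 hv)
          (by rw [e, toZFSet_mem_toZFSet_iff]; exact g0.not_gt)
        have h7 := hlt (fun i => (a, y i)) x ((h6.and hx').mono fun i hi => hi.2 ▸ hi.1)
        exact h7.ne h5
  refine ⟨⟨fun i X η => ∃ z, B i z ∧ ¬ QL z.1 a0 i z.2 (x0 i) ∧ (ρ i z).toZFSet = η ∧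
    QE z.1 i z.2 X, fun x y hx hy1 hy0 => ?_⟩, ρ, fun w h0 h1 => ?_⟩
  · obtain ⟨v, h1, e⟩ := mem_toZFSet_iff.1 hy1
    rw [← e, toZFSet_mem_toZFSet_iff, not_lt] at hy0
    obtain ⟨a, z, hz, e1⟩ := hrep v hy0 h1
    have h5 := main v hy0 h1 (fun i => (a, z i)) a (Eventually.of_forall fun _ => rfl) e1
    rw [← h.mem y fun _ => π x]
    constructor
    · intro hm
      rw [← e, ← e1, hQE] at hm
      have h6 : ∀ᶠ i in (𝒰 : Filter I), ¬ QL a a0 i (z i) (x0 i) := by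
        rw [Ultrafilter.eventually_not, ← hQL, e1, hx0, toZFSet_mem_toZFSet_iff]
        exact hy0.not_gt
      have h7 : ∀ᶠ i in (𝒰 : Filter I), (ρ i (a, z i)).toZFSet = y i := by
        rw [← h.eq, ← h.ov_toZFSet, h5, e]
      exact (hz.and (h6.and (h7.and hm))).mono fun i hi => ⟨(a, z i), hi⟩
    · intro hm
      obtain ⟨t, ht⟩ := ev_choice hm
      obtain ⟨b, -, hb⟩ := C.const_of_lt (e := fun i => (t i).1) (ht.mono fun i hi => hi.1.1)
      have m1 : val b (π fun i => (t i).2) ∈ π fun _ => π x :=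
        (hQE _ _ _).2 ((hb.and ht).mono fun i hi => by rw [← hi.1]; exact hi.2.2.2.2)
      have m2 : val b (π fun i => (t i).2) ∉ γ0.toZFSet := by
        rw [← hx0, hQL, ← Ultrafilter.eventually_not]
        exact (hb.and ht).mono fun i hi => by rw [← hi.1]; exact hi.2.2.1
      have m3 : (ov π fun i => ρ i (t i)) = v := toZFSet_injective (by
        rw [h.ov_toZFSet, e]
        exact h.congr (ht.mono fun i hi => hi.2.2.1))
      have m4 : val b (π fun i => (t i).2) ∈ (ov π fun _ => δ).toZFSet := by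
        rw [h.ov_toZFSet]
        exact (h.subset _ _).2 (Eventually.of_forall fun _ => hx) m1
      obtain ⟨v', -, e'⟩ := mem_toZFSet_iff.1 m4
      rw [← e', toZFSet_mem_toZFSet_iff, not_lt] at m2
      rcases lt_or_ge v' γ1 with h8 | h8
      · rw [← e, ← m3, main v' m2 h8 t b hb e'.symm, e']
        exact m1
      · have h6 := hr' a b z (fun i => (t i).2) hz
          (by rw [e1, ← e']; exact toZFSet_mem_toZFSet_iff.2 (h1.trans_le h8))
          (by rw [e1, toZFSet_mem_toZFSet_iff]; exact hy0.not_gt)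
        have h7 := hlt (fun i => (a, z i)) t ((h6.and hb).mono fun i hi => by
          have := hi.1
          rwa [← hi.2] at this)
        rw [h5, m3] at h7
        exact absurd h7 (lt_irrefl _)
  · obtain ⟨a, z, hz, e1⟩ := hrep _ h0 h1
    have h5 := main _ h0 h1 (fun i => (a, z i)) a (Eventually.of_forall fun _ => rfl) e1
    rw [h.ov_eq] at h5
    exact (hz.and h5).mono fun i hi => ⟨(a, z i), hi.1.1, hi.1.2, hi.2⟩

end Crit

end Pool.Agent.P.MP_19a1a5_lc
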