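import Mathlib

set_option autoImplicit false

namespace Pool.Agent.P.MP_19a1a5_lc

open ZFSet

universe u

/-- The value of the set function `f` at `x`: the union of all `y` with `(x, y) ∈ f`. -/
noncomputable def app (f x : ZFSet.{u}) : ZFSet.{u} :=
  ⋃₀ (ZFSet.sep (fun y => pair x y ∈ f) (⋃₀ (⋃₀ f)))

/-- The set `f` is a function with domain `Y`. -/
def IsFn (Y f : ZFSet.{u}) : Prop :=
  (∀ z ∈ f, ∃ a ∈ Y, ∃ b, z = pair a b) ∧ ∀ a ∈ Y, ∃! b, pair a b ∈ f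

/-- `Z` lies in the class `M` and is, in `M`, a countably complete ultrafilter on `Y`. -/
structure IsUF (M : Set ZFSet.{u}) (Y Z : ZFSet.{u}) : Prop where
  memY : Y ∈ M
  memZ : Z ∈ M
  sub : ∀ A ∈ Z, A ⊆ Y
  top : Y ∈ Z
  proper : ∅ ∉ Z
  inter : ∀ A ∈ Z, ∀ B ∈ Z, A ∩ B ∈ Z
  up : ∀ A ∈ Z, ∀ B ∈ M, A ⊆ B → B ⊆ Y → B ∈ Z
  ultra : ∀ A ∈ M, A ⊆ Y → A ∈ Z ∨ Y \ A ∈ Z
  cc : ∀ s ∈ M, (∀ n : ℕ, app s (n : Ordinal).toZFSet ∈ Z) →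
    ZFSet.sep (fun y => ∀ n : ℕ, y ∈ app s (n : Ordinal).toZFSet) Y ∈ Z

/-- The transitive class `N` is the ultrapower of `M` by `Z ∈ M` (formed with the functions on `Y`
lying in `M`), `π f` is the element `[f]_Z` of `N`, and `i` is the ultrapower embedding. -/
structure IsUlt (M : Set ZFSet.{u}) (Y Z : ZFSet.{u}) (N : Set ZFSet.{u})
    (i π : ZFSet.{u} → ZFSet.{u}) : Prop where
  uf : IsUF M Y Z
  trans : ∀ x ∈ N, ∀ y ∈ x, y ∈ N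
  onto : N = π '' {f | f ∈ M ∧ IsFn Y f}
  mem : ∀ f ∈ M, ∀ g ∈ M, IsFn Y f → IsFn Y g →
    (π f ∈ π g ↔ ZFSet.sep (fun y => app f y ∈ app g y) Y ∈ Z)
  eq : ∀ f ∈ M, ∀ g ∈ M, IsFn Y f → IsFn Y g →
    (π f = π g ↔ ZFSet.sep (fun y => app f y = app g y) Y ∈ Z)
  emb : ∀ x ∈ M, i x = π (prod Y {x})

/-- `i : M → N` is an internal ultrapower embedding. -/
def Internal (M N : Set ZFSet.{u}) (i : ZFSet.{u} → ZFSet.{u}) : Prop :=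
  ∃ Y Z π, IsUlt M Y Z N i π

/-- The Ultrapower Axiom. -/
def UA : Prop :=
  ∀ X U Y W : ZFSet.{u}, IsUF Set.univ X U → IsUF Set.univ Y W →
    ∃ MU jU πU MW jW πW, IsUlt Set.univ X U MU jU πU ∧ IsUlt Set.univ Y W MW jW πW ∧
      ∃ N k h, Internal MU N k ∧ Internal MW N h ∧ ∀ x, k (jU x) = h (jW x)

/-- The Rudin-Frolik order: `D` on `X` is below `U` on `Y`. -/
def RFle (X D Y U : ZFSet.{u}) : Prop :=
  ∃ MD jD πD MU jU πU, IsUlt Set.univ X D MD jD πD ∧ IsUlt Set.univ Y U MU jU πU ∧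
    ∃ i, Internal MD MU i ∧ ∀ x, i (jD x) = jU x

/-- `U` on `Y` is irreducible. -/
def Irred (Y U : ZFSet.{u}) : Prop :=
  ∀ X D : ZFSet.{u}, IsUF Set.univ X D → RFle X D Y U → (∃ x, {x} ∈ D) ∨ RFle Y U X D

/-- `W` is a Dodd sound ultrafilter on the ordinal `δ`. -/
def DoddSound (δ : Ordinal.{u}) (W : ZFSet.{u}) : Prop :=
  (∀ A ∈ W, A.card = δ.card) ∧ ∃ M j π, IsUlt Set.univ δ.toZFSet W M j π ∧
    ∃ G ∈ M, ∀ z, z ∈ G ↔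
      ∃ X, X ⊆ δ.toZFSet ∧ z = pair X (j X ∩ π (pairSep (· = ·) δ.toZFSet δ.toZFSet))

/-- Rudin-Keisler equivalence: a bijection between sets in `U` and `W` carries `U` to `W`. -/
def RKEquiv (U W : ZFSet.{u}) : Prop :=
  ∃ A ∈ U, ∃ B ∈ W, ∃ e : ZFSet.{u} → ZFSet.{u}, Set.BijOn e A B ∧
    ∀ C, C ⊆ B → (C ∈ W ↔ ZFSet.sep (fun a => e a ∈ C) A ∈ U)

/-- The ordinal `ν` is a generator of `j`: it is not `j(f)(a)` for a finite set `a` of smaller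
ordinals. -/
def IsGen (j : ZFSet.{u} → ZFSet.{u}) (ν : Ordinal.{u}) : Prop :=
  ¬ ∃ (f : ZFSet.{u}) (a : List Ordinal.{u}), (∀ x ∈ a, x < ν) ∧
    app (j f) (a.foldr (fun x s => insert x.toZFSet s) ∅) = ν.toZFSet

end Pool.Agent.P.MP_19a1a5_lc
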