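import Pool.Agent.P.MP_19a1a5_lc.Code

/-!
The induction giving soundness below the least seed.
-/

set_option autoImplicit false
set_option linter.unusedSectionVars false

namespace Pool.Agent.P.MP_19a1a5_lc

open ZFSet Filter Ordinal Cardinal Finset.Colex

universe u v

attribute [local irreducible] app gr ZFSet.sep ZFSet.pair

section

variable {I : Type v} {𝒰 : Ultrafilter I} {π : (I → ZFSet.{u}) → ZFSet.{u}} {δ : Ordinal.{u}}
  {k : I → Ordinal.{u}} {rep : Ordinal.{u} → I → Ordinal.{u}}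
  {cd : Finset Ordinal.{u} → I → Ordinal.{u}}

theorem Col.foldr (h : Col 𝒰 π) (D : Cod 𝒰 π δ rep cd) (l : List Ordinal.{u})
    (hl : ∀ x ∈ l, x < ov π fun _ => δ) :
    (π fun i => l.foldr (fun x s => Insert.insert (rep x i).toZFSet s) ∅) =
      l.foldr (fun x s => Insert.insert x.toZFSet s) ∅ := by
  induction l with
  | nil => exact h.empty
  | cons a l ih =>
    simp only [List.foldr_cons]
    rw [h.insert (fun i => (rep a i).toZFSet), ih fun x hx => hl x (List.mem_cons_of_mem _ hx),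
      ← h.ov_toZFSet, D.ov_rep a (hl a List.mem_cons_self)]

theorem gen_cover (h : Col 𝒰 π) (D : Cod 𝒰 π δ rep cd) (h0 : 0 < δ) (x : Ordinal.{u}) :
    x < (ov π fun _ => δ) → ∃ s : Finset Ordinal.{u},
      (∀ y ∈ s, IsGen (fun z => π fun _ => z) y ∧ y ≤ x) ∧ Hul 𝒰 δ (cd s) (rep x) := by
  classical
  induction x using WellFoundedLT.induction with
  | ind x ih =>
    intro hx
    by_cases hG : IsGen (fun z => π fun _ => z) x
    · exact ⟨{x}, fun y hy => by rw [Finset.mem_singleton.1 hy]; exact ⟨hG, le_rfl⟩,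
        D.hul_mem _ _ (Finset.mem_singleton_self x)⟩
    obtain ⟨f, l, hl, e⟩ := not_not.1 hG
    choose! s hs1 hs2 using fun y (hy : y ∈ l) => ih y (hl y hy) ((hl y hy).trans hx)
    refine ⟨l.toFinset.biUnion s, fun y hy => ?_, ?_⟩
    · obtain ⟨z, hz, hy⟩ := Finset.mem_biUnion.1 hy
      rw [List.mem_toFinset] at hz
      exact ⟨(hs1 z hz y hy).1, (hs1 z hz y hy).2.trans (hl z hz).le⟩
    have h1 : ∀ y ∈ l, Hul 𝒰 δ (cd (l.toFinset.biUnion s)) (rep y) := fun y hy =>
      (D.hul_cd _ _ fun z hz => D.hul_mem _ _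
        (Finset.mem_biUnion.2 ⟨y, List.mem_toFinset.2 hy, hz⟩)).trans (hs2 y hy)
    choose! F hF1 hF2 using h1
    rw [← h.foldr D l fun y hy => (hl y hy).trans hx, ← h.capp, ← D.ov_rep x hx, h.ov_toZFSet,
      h.eq] at e
    refine ⟨fun a => if (app f (l.foldr (fun y s => Insert.insert (F y a).toZFSet s) ∅)).rank < δ
      then (app f (l.foldr (fun y s => Insert.insert (F y a).toZFSet s) ∅)).rank else 0,
      fun a _ => ?_, ?_⟩
    · dsimp only
      split_ifs with hi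
      exacts [hi, h0]
    · have h2 : ∀ᶠ i in (𝒰 : Filter I), ∀ y ∈ l.toFinset,
          rep y i = F y (cd (l.toFinset.biUnion s) i) :=
        (eventually_all_finset _).2 fun y hy => hF2 y (List.mem_toFinset.1 hy)
      refine (e.and h2).mono fun i hi => ?_
      have h3 : l.foldr (fun y t => Insert.insert (F y (cd (l.toFinset.biUnion s) i)).toZFSet t)
          (∅ : ZFSet.{u}) = l.foldr (fun y t => Insert.insert (rep y i).toZFSet t) ∅ :=
        List.foldr_ext _ _ _ fun y hy t => by rw [hi.2 y (List.mem_toFinset.2 hy)]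
      dsimp only
      rw [h3, hi.1, rank_toZFSet, if_pos (D.rep_lt x i)]

theorem Cod.lt_of_lt (D : Cod 𝒰 π δ rep cd) {s t : Finset Ordinal.{u}}
    (hs : ∀ x ∈ s, x < ov π fun _ => δ) (ht : ∀ x ∈ t, x < ov π fun _ => δ)
    (h : ov π (cd s) < ov π (cd t)) : toColex s < toColex t := by
  rcases lt_trichotomy (toColex s) (toColex t) with a | a | a
  · exact a
  · rw [toColex_inj.1 a] at h
    exact absurd h (lt_irrefl _)
  · exact absurd h (D.mono _ _ ht hs a).not_gt

theorem Cod.le_cd (D : Cod 𝒰 π δ rep cd) (b : Ordinal.{u}) :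
    b < (ov π fun _ => δ) → b ≤ ov π (cd {b}) := by
  induction b using WellFoundedLT.induction with
  | ind b ih =>
    intro hb
    by_contra hn
    rw [not_le] at hn
    exact (ih _ hn (hn.trans hb)).not_gt (D.mono _ _ (by simpa using hn.trans hb)
      (by simpa using hb) (singleton_lt_singleton.2 hn))

theorem snd_all (C : Crit 𝒰 π δ k) (D : Cod 𝒰 π δ rep cd) (h0 : 0 < δ) {β0 : Ordinal.{u}}
    (en : Ordinal.{u} → Finset Ordinal.{u})
    (hen1 : ∀ a, ∀ y ∈ en a, IsGen (fun z => π fun _ => z) y ∧ y < β0)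
    (hen2 : ∀ s : Finset Ordinal.{u}, (∀ y ∈ s, IsGen (fun z => π fun _ => z) y ∧ y < β0) →
      ∃ a < δ, en a = s)
    (hkey : ∀ w : I → Ordinal.{u}, (∀ i, w i < δ) → ov π w < β0 → Snd 𝒰 π δ (ov π w) →
      Der 𝒰 π δ w) (β : Ordinal.{u}) : β ≤ β0 → β < (ov π fun _ => δ) → Snd 𝒰 π δ β := by
  classical
  have h := C.col
  induction β using WellFoundedLT.induction with
  | ind β ih =>
    intro hβ0 hβ
    obtain ⟨q, hq, rfl⟩ := D.surj β hβ
    rcases q.eq_empty_or_nonempty with rfl | hne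
    · refine ⟨fun _ _ _ => True, fun x y _ hy => ?_⟩
      obtain ⟨γ, hγ, -⟩ := mem_toZFSet_iff.1 hy
      obtain ⟨r, hr, rfl⟩ := D.surj γ (hγ.trans hβ)
      exact absurd (D.lt_of_lt hr hq hγ) not_lt_bot
    obtain ⟨b, hb, hmin⟩ := q.exists_min_image id hne
    have ht : ∀ x ∈ q.erase b, x < ov π fun _ => δ := fun x hx => hq x (Finset.mem_of_mem_erase hx)
    have hu : ∀ s : Finset Ordinal.{u}, ∀ x ∈ q.erase b ∪ s.filter (· < b),
        x < ov π fun _ => δ := fun s x hx => (Finset.mem_union.1 hx).elim (ht x)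
      fun hx => (Finset.mem_filter.1 hx).2.trans (hq b hb)
    have hlt : ∀ s : Finset Ordinal.{u},
        ov π (cd (q.erase b ∪ s.filter (· < b))) < ov π (cd q) := fun s =>
      D.mono _ _ (hu s) hq (colex_union_lt hb fun x hx => (Finset.mem_filter.1 hx).2)
    have h01 : ov π (cd (q.erase b)) < ov π (cd q) := by simpa using hlt ∅
    have hbβ : b ≤ β0 := by
      refine ((D.le_cd b (hq b hb)).trans (not_lt.1 fun a => ?_)).trans hβ0
      exact (D.lt_of_lt hq (by simpa using hq b hb) a).not_ge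
        (toColex_le_toColex_of_subset (Finset.singleton_subset_iff.2 hb))
    obtain ⟨Q0, hQ0⟩ := ih _ h01 (h01.le.trans hβ0) (h01.trans hβ)
    obtain ⟨⟨Q1, hQ1⟩, -⟩ := C.comp (fun a => cd (q.erase b ∪ (en a).filter (· < b)))
      (fun a i => D.cd_lt _ i)
      (fun a => hkey _ (D.cd_lt _) ((hlt _).trans_le hβ0)
        (ih _ (hlt _) ((hlt _).le.trans hβ0) ((hlt _).trans hβ)))
      (fun a a' => by
        obtain ⟨c, -, hc⟩ := hen2 (en a ∪ en a') fun y hy =>
          (Finset.mem_union.1 hy).elim (hen1 a y) (hen1 a' y)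
        refine ⟨c, D.hul_cd _ _ fun x hx => D.hul_mem _ _ ?_,
          D.hul_cd _ _ fun x hx => D.hul_mem _ _ ?_⟩ <;>
        · simp only [hc, Finset.mem_union, Finset.mem_filter] at hx ⊢
          tauto) h01
      (fun v h1 h2 => by
        obtain ⟨r, hr, rfl⟩ := D.surj v (h2.trans hβ)
        have h3 := colex_interval hb hmin
          (not_lt.1 fun a => (D.mono _ _ hr ht a).not_ge h1) (D.lt_of_lt hr hq h2)
        choose! s hs1 hs2 using fun x (hx : x ∈ r) => gen_cover h D h0 x (hr x hx)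
        obtain ⟨a, ha, e⟩ := hen2 ((r.filter (· < b)).biUnion s) fun y hy => by
          obtain ⟨z, hz, hy⟩ := Finset.mem_biUnion.1 hy
          have := hs1 z (Finset.mem_filter.1 hz).1 y hy
          exact ⟨this.1, (this.2.trans_lt (Finset.mem_filter.1 hz).2).trans_le hbβ⟩
        refine ⟨a, ha, cd r, rfl, D.hul_cd _ _ fun x hx => ?_⟩
        rcases h3 x hx with h4 | h4
        · exact D.hul_mem _ _ (Finset.mem_union_left _ h4)
        · refine (D.hul_cd _ _ fun y hy => D.hul_mem _ _ (Finset.mem_union_right _ ?_)).trans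
            (hs2 x hx)
          rw [e, Finset.mem_filter]
          exact ⟨Finset.mem_biUnion.2 ⟨x, Finset.mem_filter.2 ⟨hx, h4⟩, hy⟩,
            (hs1 x hx y hy).2.trans_lt h4⟩)
    refine ⟨fun i X η => if η ∈ (cd (q.erase b) i).toZFSet then Q0 i X η else Q1 i X η,
      fun x y hx hy => ?_⟩
    by_cases hy0 : π y ∈ (ov π (cd (q.erase b))).toZFSet
    · rw [hQ0 x y hx hy0]
      rw [h.ov_toZFSet, h.mem] at hy0
      exact eventually_congr (hy0.mono fun i hi => by simp only [if_pos hi])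
    · rw [hQ1 x y hx hy hy0]
      rw [h.ov_toZFSet, h.mem, ← Ultrafilter.eventually_not] at hy0
      exact eventually_congr (hy0.mono fun i hi => by simp only [if_neg hi])

theorem Crit.not_const (C : Crit 𝒰 π δ k) (a : Ordinal.{u}) :
    ¬ ∀ᶠ i in (𝒰 : Filter I), k i = a := fun ha => by
  obtain ⟨i, hi⟩ := ha.exists
  have h1 : a < δ := hi ▸ C.lt i
  have h2 := (C.col.ov_eq k fun _ => a).2 ha
  rw [C.hk, C.ov_const h1] at h2
  exact h1.ne' h2

theorem Crit.strong {κ : Cardinal.{u}} (C : Crit 𝒰 π κ.ord k) {μ : Cardinal.{u}} (hμ : μ < κ) :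
    2 ^ μ < κ := by
  by_contra hn
  have h := C.col
  have hμ' : μ.ord < κ.ord := ord_lt_ord.2 hμ
  have h1 : #(Set.Iio κ.ord) ≤ #(powerset μ.ord.toZFSet) := by
    rw [Cardinal.mk_Iio_ordinal, cardinalMk_coe_sort, card_powerset, card_toZFSet, card_ord,
      card_ord]
    exact Cardinal.lift_le.2 (not_lt.1 hn)
  obtain ⟨ι⟩ := h1
  let x : I → ZFSet.{u} := fun i => (ι ⟨k i, C.lt i⟩).1
  have hx : π x ⊆ μ.ord.toZFSet := by
    rw [← C.fix _ hμ', h.subset]
    exact Eventually.of_forall fun i => ZFSet.mem_powerset.1 (ι ⟨k i, C.lt i⟩).2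
  have hδ : μ.ord.toZFSet ⊆ κ.ord.toZFSet := toZFSet_subset_toZFSet_iff.2 hμ'.le
  have e : (π fun _ => π x) = π x := by
    refine h.ext' (fun z hz => h.tr _ _ hz) fun y => ⟨fun hy => ?_, fun hy => ?_⟩
    · obtain ⟨a, -, e1, e2⟩ := C.const_of_mem (hδ (hx hy))
      exact e2.mono fun i hi => by rwa [hi, ← e1]
    · have : π y ∈ μ.ord.toZFSet := by
        rw [← C.fix _ hμ', h.mem]
        exact hy.mono fun i hi => hx hi
      obtain ⟨a, -, e1, e2⟩ := C.const_of_mem (hδ this)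
      obtain ⟨i, hi⟩ := (hy.and e2).exists
      rw [e1, ← hi.2]
      exact hi.1
  rw [h.eq] at e
  obtain ⟨i0, hi0⟩ := e.exists
  exact C.not_const (k i0) (e.mono fun i hi =>
    congrArg Subtype.val (ι.injective (Subtype.ext (hi.symm.trans hi0))))

theorem mk_prod_le (x : ZFSet.{u}) : (prod x x).card ≤ x.card * x.card := by
  have h1 : ((prod x x : ZFSet.{u}) : Set ZFSet.{u}) ⊆
      Set.range fun p : x × x => pair p.1.1 p.2.1 := fun z hz => by
    obtain ⟨a, ha, b, hb, rfl⟩ := mem_prod.1 hz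
    exact ⟨(⟨a, ha⟩, ⟨b, hb⟩), rfl⟩
  have h2 : #(prod x x) ≤ #(x × x) := (mk_le_mk_of_subset h1).trans mk_range_le
  rw [mk_prod, Cardinal.lift_id, cardinalMk_coe_sort, cardinalMk_coe_sort,
    ← Cardinal.lift_mul] at h2
  exact Cardinal.lift_le.1 h2

theorem exists_seed {κ : Cardinal.{u}} (hκ : ℵ₀ < κ) (C : Crit 𝒰 π κ.ord k)
    (D : Cod 𝒰 π κ.ord rep cd) (en : Ordinal.{u} → Finset Ordinal.{u})
    (hen1 : ∀ a, ∀ y ∈ en a, IsGen (fun z => π fun _ => z) y ∧ y < ov π fun _ => κ.ord)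
    (hen2 : ∀ s : Finset Ordinal.{u},
      (∀ y ∈ s, IsGen (fun z => π fun _ => z) y ∧ y < ov π fun _ => κ.ord) →
      ∃ a < κ.ord, en a = s)
    (hkey : ∀ w : I → Ordinal.{u}, (∀ i, w i < κ.ord) → Snd 𝒰 π κ.ord (ov π w) →
      Der 𝒰 π κ.ord w) : False := by
  classical
  have h := C.col
  have h0 : 0 < κ.ord := (isSuccLimit_ord hκ.le).bot_lt
  have hw : ∀ w : I → Ordinal.{u}, (∀ i, w i < κ.ord) → ov π w < ov π fun _ => κ.ord :=
    fun w a => (h.ov_lt _ _).2 (Eventually.of_forall a)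
  obtain ⟨-, ρ, hρ⟩ := C.comp (fun a => cd (en a)) (fun a i => D.cd_lt _ i)
    (fun a => hkey _ (D.cd_lt _) (snd_all C D h0 en hen1 hen2
      (fun w a _ b => hkey w a b) _ (hw _ (D.cd_lt _)).le (hw _ (D.cd_lt _))))
    (fun a a' => by
      obtain ⟨c, -, hc⟩ := hen2 (en a ∪ en a') fun y hy =>
        (Finset.mem_union.1 hy).elim (hen1 a y) (hen1 a' y)
      refine ⟨c, D.hul_cd _ _ fun x hx => D.hul_mem _ _ ?_,
        D.hul_cd _ _ fun x hx => D.hul_mem _ _ ?_⟩ <;>
      · simp only [hc, Finset.mem_union]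
        tauto) (γ0 := 0) (γ1 := ov π fun _ => κ.ord)
    (bot_le.trans_lt (hw k C.lt))
    (fun v _ h2 => by
      obtain ⟨s, hs1, hs2⟩ := gen_cover h D h0 v h2
      obtain ⟨a, ha, rfl⟩ := hen2 s fun y hy => ⟨(hs1 y hy).1, (hs1 y hy).2.trans_lt h2⟩
      exact ⟨a, ha, rep v, D.ov_rep v h2, hs2⟩)
  have h1 : ∀ᶠ i in (𝒰 : Filter I), ∀ η, η < κ.ord → ∃ z : Ordinal.{u} × ZFSet.{u}, z.1 < k i ∧
      z.2 ⊆ prod (k i).toZFSet (k i).toZFSet ∧ ρ i z = η := by
    refine ev_forall fun w => ?_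
    rw [Ultrafilter.eventually_imp, ← h.ov_lt]
    exact hρ w bot_le
  obtain ⟨i, hi⟩ := h1.exists
  have h2 : Set.Iio κ.ord ⊆ Set.range
      fun p : Set.Iio (k i) × powerset (prod (k i).toZFSet (k i).toZFSet) =>
        ρ i (p.1.1, p.2.1) := fun η hη => by
    obtain ⟨z, a, b, e⟩ := hi η hη
    exact ⟨(⟨z.1, a⟩, ⟨z.2, ZFSet.mem_powerset.2 b⟩), e⟩
  have h3 := (mk_le_mk_of_subset h2).trans mk_range_le
  rw [mk_prod, Cardinal.lift_id, Cardinal.lift_id, Cardinal.mk_Iio_ordinal,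
    Cardinal.mk_Iio_ordinal, cardinalMk_coe_sort, ← Cardinal.lift_mul, Cardinal.lift_le,
    card_powerset, card_ord] at h3
  have h4 : (k i).card < κ := lt_ord.1 (C.lt i)
  have h5 := mk_prod_le (k i).toZFSet
  rw [card_toZFSet] at h5
  exact (mul_lt_of_lt hκ.le h4 (C.strong (h5.trans_lt (mul_lt_of_lt hκ.le h4 h4)))).not_ge h3

end

end Pool.Agent.P.MP_19a1a5_lc
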