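import Pool.Agent.P.MP_19a1a5_lc.Bridge

/-!
The successor step: comparison of a derived ultrafilter with an irreducible one.
-/

set_option autoImplicit false
set_option linter.unusedSectionVars false

namespace Pool.Agent.P.MP_19a1a5_lc

open ZFSet Filter Ordinal

universe u v

attribute [local irreducible] app gr ZFSet.sep ZFSet.pair

theorem ev_iff {I : Type v} {𝒰 : Ultrafilter I} {p q : I → Prop}
    (h : (∀ᶠ i in (𝒰 : Filter I), p i) ↔ ∀ᶠ i in (𝒰 : Filter I), q i) :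
    ∀ᶠ i in (𝒰 : Filter I), p i ↔ q i := by
  by_cases hp : ∀ᶠ i in (𝒰 : Filter I), p i
  · exact (hp.and (h.1 hp)).mono fun i hi => iff_of_true hi.1 hi.2
  · have hq := mt h.2 hp
    rw [← Ultrafilter.eventually_not] at hp hq
    exact (hp.and hq).mono fun i hi => iff_of_false hi.1 hi.2

/-- the relation `y ∈ j(X)` for `X ⊆ δ` and `y < γ` is internal -/
def Snd {I : Type v} (𝒰 : Ultrafilter I) (π : (I → ZFSet.{u}) → ZFSet.{u}) (δ γ : Ordinal.{u}) :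
    Prop :=
  ∃ Q : I → ZFSet.{u} → ZFSet.{u} → Prop, ∀ x y : I → ZFSet.{u}, π x ⊆ δ.toZFSet →
    π y ∈ γ.toZFSet → ((∀ᶠ i in (𝒰 : Filter I), y i ∈ π x) ↔
      ∀ᶠ i in (𝒰 : Filter I), Q i (x i) (y i))

/-- the ultrafilter on `δ` derived from `g` is internal -/
def Der {I : Type v} (𝒰 : Ultrafilter I) (π : (I → ZFSet.{u}) → ZFSet.{u}) (δ : Ordinal.{u})
    (g : I → Ordinal.{u}) : Prop :=
  ∃ Q : I → ZFSet.{u} → Prop, ∀ x : I → ZFSet.{u}, π x ⊆ δ.toZFSet →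
    ((∀ᶠ i in (𝒰 : Filter I), (g i).toZFSet ∈ π x) ↔ ∀ᶠ i in (𝒰 : Filter I), Q i (x i))

section tri

variable {I : Type v} {𝒰 : Ultrafilter I} {π : (I → ZFSet.{u}) → ZFSet.{u}}
  {δ : Ordinal.{u}} {g : I → Ordinal.{u}}
  {𝒵 : I → Ultrafilter ZFSet.{u}} {𝒵' : ZFSet.{u} → Ultrafilter ZFSet.{u}}
  {ϱ : (I × ZFSet.{u} → ZFSet.{u}) → ZFSet.{u}}
  {ϱ' : (ZFSet.{u} × ZFSet.{u} → ZFSet.{u}) → ZFSet.{u}}

theorem tri (h : Col 𝒰 π) (hg : ∀ i, g i < δ) (h1 : Col (sum 𝒰 𝒵) ϱ)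
    (h2 : Col (sum (𝒰.map fun i => (g i).toZFSet) 𝒵') ϱ') (_hr : Set.range ϱ = Set.range ϱ')
    (hc : ∀ x, (ϱ fun _ => x) = ϱ' fun _ => x) (hS : Snd 𝒰 π δ (ov π g)) :
    Der 𝒰 π δ g ∨ ∀ f : ZFSet.{u} → ZFSet.{u},
      (ϱ' fun q => f q.1) = ϱ fun q => f (g q.1).toZFSet := by
  have hδ : ∀ᶠ x in ((𝒰.map fun i => (g i).toZFSet : Ultrafilter ZFSet.{u}) : Filter ZFSet.{u}),
      x ∈ δ.toZFSet :=
    (Eventually.of_forall fun i => toZFSet_mem_toZFSet_iff.2 (hg i) :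
      ∀ᶠ i in (𝒰 : Filter I), (g i).toZFSet ∈ δ.toZFSet)
  have hζ : (ϱ' fun q => q.1).IsOrdinal :=
    (h2.isOrdinal fun _ => δ).mem ((h2.mem _ _).2 (ev_sum_fst.2 hδ))
  have hη : (ϱ fun q => (g q.1).toZFSet).IsOrdinal := h1.isOrdinal fun q => g q.1
  rcases hζ.mem_trichotomous hη with hlt | heq | hlt
  · left
    obtain ⟨Q, hQ⟩ := hS
    obtain ⟨Φ, hΦ⟩ := h1.tr _ _ hlt
    rw [← hΦ, h1.mem, ev_sum] at hlt
    refine ⟨fun i X => ∀ᶠ y in (𝒵 i : Filter ZFSet.{u}), Q i X (Φ (i, y)), fun x hx => ?_⟩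
    have e1 : (∀ᶠ i in (𝒰 : Filter I), (g i).toZFSet ∈ π x) ↔
        ∀ᶠ i in (𝒰 : Filter I), ∀ᶠ y in (𝒵 i : Filter ZFSet.{u}), Φ (i, y) ∈ π x := by
      have a := (h2.mem (fun q => q.1) fun _ => π x).trans
        (ev_sum_fst (p := fun z => z ∈ π x))
      rw [← hΦ, ← hc, h1.mem, ev_sum] at a
      exact a.symm
    have e2 : ∀ᶠ i in (𝒰 : Filter I), ∀ η, η ∈ (g i).toZFSet → (η ∈ π x ↔ Q i (x i) η) := by
      refine ev_forall fun y => ?_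
      rw [Ultrafilter.eventually_imp, ← h.mem, ← h.ov_toZFSet]
      exact fun hy => ev_iff (hQ x y hx hy)
    rw [e1]
    exact eventually_congr ((hlt.and e2).mono fun i hi =>
      eventually_congr (hi.1.mono fun y hy => hi.2 _ hy))
  · right
    intro f
    have a1 : (ϱ' fun q => f q.1) = ϱ' fun q => app (gr δ.toZFSet f) q.1 :=
      h2.congr (ev_sum_fst (p := fun z => f z = app (gr δ.toZFSet f) z).2
        (hδ.mono fun x hx => (app_gr f hx).symm))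
    have a2 : (ϱ fun q => f (g q.1).toZFSet) = ϱ fun q => app (gr δ.toZFSet f) (g q.1).toZFSet :=
      h1.congr (Eventually.of_forall fun q =>
        (app_gr f (toZFSet_mem_toZFSet_iff.2 (hg q.1))).symm)
    rw [a1, a2, h2.capp (fun _ => gr δ.toZFSet f) fun q => q.1,
      h1.capp (fun _ => gr δ.toZFSet f) fun q => (g q.1).toZFSet, hc, heq]
  · exfalso
    obtain ⟨Φ, hΦ⟩ := h2.tr _ _ hlt
    rw [← hΦ, h2.mem, ev_sum] at hlt
    let p : ZFSet.{u} → Prop := mem_wf.fix fun x r =>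
      ¬ ∀ᶠ y in (𝒵' x : Filter ZFSet.{u}), ∃ hy : Φ (x, y) ∈ x, r _ hy
    have hp : ∀ x, p x ↔ ¬ ∀ᶠ y in (𝒵' x : Filter ZFSet.{u}), ∃ _ : Φ (x, y) ∈ x, p (Φ (x, y)) :=
      fun x => iff_of_eq (mem_wf.fix_eq _ x)
    have a := (h1.mem (fun q => (g q.1).toZFSet) fun _ => ZFSet.sep p δ.toZFSet).trans
      (ev_sum_fst (p := fun i => (g i).toZFSet ∈ ZFSet.sep p δ.toZFSet))
    rw [← hΦ, hc, h2.mem, ev_sum] at a
    have b : ∀ᶠ x in ((𝒰.map fun i => (g i).toZFSet : Ultrafilter ZFSet.{u}) : Filter ZFSet.{u}),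
        (∀ᶠ y in (𝒵' x : Filter ZFSet.{u}), Φ (x, y) ∈ ZFSet.sep p δ.toZFSet) ↔
          ¬ x ∈ ZFSet.sep p δ.toZFSet := by
      refine (hlt.and hδ).mono fun x hx => ?_
      rw [mem_sep, hp x, not_and, not_not]
      simp only [hx.2, true_imp_iff]
      refine eventually_congr (hx.1.mono fun y hy => ?_)
      rw [mem_sep]
      exact ⟨fun c => ⟨hy, c.2⟩, fun c => ⟨(isOrdinal_toZFSet δ).isTransitive _ hx.2 hy, c.2⟩⟩
    rw [eventually_congr b, Ultrafilter.eventually_not] at a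
    exact not_iff_self a

end tri

theorem Col.natZ {I : Type v} {𝒰 : Ultrafilter I} {π : (I → ZFSet.{u}) → ZFSet.{u}}
    (h : Col 𝒰 π) (n : ℕ) : (π fun _ => (n : Ordinal.{u}).toZFSet) = (n : Ordinal.{u}).toZFSet := by
  induction n with
  | zero => simpa using h.empty
  | succ n ih =>
    simp only [Nat.cast_succ, toZFSet_add_one]
    rw [h.insert (fun _ => (n : Ordinal.{u}).toZFSet) fun _ => (n : Ordinal.{u}).toZFSet, ih]

theorem internal_of {Y U : ZFSet.{u}} {M : Set ZFSet.{u}} {j : ZFSet.{u} → ZFSet.{u}}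
    {𝒰 : Ultrafilter ZFSet.{u}} {π : (ZFSet.{u} → ZFSet.{u}) → ZFSet.{u}} (V : VU Y U M j 𝒰 π)
    {t : ZFSet.{u} → ZFSet.{u}} {πD : (ZFSet.{u} → ZFSet.{u}) → ZFSet.{u}}
    (hD : Col (𝒰.map t) πD) (F : ZFSet.{u} → ZFSet.{u})
    (hF : ∀ a, πD a ∈ πD F ↔ (∀ᶠ i in (𝒰 : Filter ZFSet.{u}), a (t i) ⊆ Y) ∧
      ∀ᶠ i in (𝒰 : Filter ZFSet.{u}), i ∈ a (t i)) :
    ∃ k, Internal (Set.range πD) M k ∧ ∀ x, k (πD fun _ => x) = j x := by
  classical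
  have h := V.col
  have := V.cc
  let k : ZFSet.{u} → ZFSet.{u} := fun x =>
    if hx : ∃ f, πD f = x then π fun i => hx.choose (t i) else ∅
  have hk : ∀ f, k (πD f) = π fun i => f (t i) := fun f => by
    have hx : ∃ f', πD f' = πD f := ⟨f, rfl⟩
    simp only [k, dif_pos hx]
    exact h.congr ((hD.eq _ _).1 hx.choose_spec)
  have hY : ∀ᶠ i in (𝒰 : Filter ZFSet.{u}), i ∈ Y := by
    rw [V.ev, sep_congr (q := fun _ => True) fun y hy => by simp [hy], ← V.ev]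
    exact Eventually.of_forall fun _ => trivial
  have hϖ : ∀ f, app (k (πD f)) (π fun i => i) = π fun i => app (f (t i)) i := fun f => by
    rw [hk, ← h.capp]
  have hsub : ∀ a b, πD a ⊆ πD b ↔ ∀ᶠ i in (𝒰 : Filter ZFSet.{u}), a (t i) ⊆ b (t i) :=
    fun a b => hD.subset a b
  have key : ∀ (R : ZFSet.{u} → ZFSet.{u} → Prop),
      (∀ f g, R (πD f) (πD g) ↔ ∀ᶠ i in (𝒰.map t : Filter ZFSet.{u}), R (f i) (g i)) → ∀ f g,
      ZFSet.sep (fun y => R (app (πD f) y) (app (πD g) y)) (πD fun _ => Y) ∈ πD F ↔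
        ∀ᶠ i in (𝒰 : Filter ZFSet.{u}), R (app (f (t i)) i) (app (g (t i)) i) := by
    intro R hR f g
    rw [← hD.sep (fun _ => Y) (Q := fun x y => R (app (f x) y) (app (g x) y)) fun a _ => by
      rw [← hD.capp, ← hD.capp, hR], hF]
    simp only [mem_sep, eventually_and]
    exact ⟨fun a => a.2.2, fun a => ⟨Eventually.of_forall fun _ => sep_subset, hY, a⟩⟩
  refine ⟨k, ⟨πD fun _ => Y, πD F, fun φ => app (k φ) (π fun i => i),
    ⟨⟨_, rfl⟩, ⟨_, rfl⟩, fun A hA => ?_, ?_, ?_, fun A hA B hB => ?_, ?_, ?_, ?_⟩,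
      ?_, ?_, ?_, ?_, ?_⟩, fun x => by rw [hk, V.emb]⟩
  · obtain ⟨a, rfl⟩ := hD.tr _ _ hA
    exact (hsub _ _).2 ((hF a).1 hA).1
  · exact (hF _).2 ⟨Eventually.of_forall fun _ => subset_rfl, hY⟩
  · rw [← hD.empty, hF]
    rintro ⟨-, a⟩
    obtain ⟨i, hi⟩ := a.exists
    exact notMem_empty _ hi
  · obtain ⟨a, rfl⟩ := hD.tr _ _ hA
    obtain ⟨b, rfl⟩ := hD.tr _ _ hB
    rw [← hD.inter, hF]
    rw [hF] at hA hB
    exact ⟨hA.1.mono fun i hi z hz => hi (ZFSet.mem_inter.1 hz).1,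
      (hA.2.and hB.2).mono fun i hi => ZFSet.mem_inter.2 hi⟩
  · rintro A hA _ ⟨b, rfl⟩ h1 h2
    obtain ⟨a, rfl⟩ := hD.tr _ _ hA
    rw [hF] at hA ⊢
    rw [hsub] at h1 h2
    exact ⟨h2, (hA.2.and h1).mono fun i hi => hi.2 hi.1⟩
  · rintro _ ⟨a, rfl⟩ h1
    rw [← hD.sdiff, hF, hF]
    rw [hsub] at h1
    by_cases ha : ∀ᶠ i in (𝒰 : Filter ZFSet.{u}), i ∈ a (t i)
    · exact Or.inl ⟨h1, ha⟩
    · rw [← Ultrafilter.eventually_not] at ha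
      exact Or.inr ⟨Eventually.of_forall fun i z hz => (ZFSet.mem_sdiff.1 hz).1,
        (hY.and ha).mono fun i hi => ZFSet.mem_sdiff.2 hi⟩
  · rintro _ ⟨s, rfl⟩ hs
    have e : ∀ n : ℕ, app (πD s) (n : Ordinal).toZFSet =
        πD fun x => app (s x) (n : Ordinal).toZFSet := fun n => by
      rw [hD.capp s fun _ => (n : Ordinal).toZFSet, hD.natZ]
    simp only [e] at hs ⊢
    rw [← hD.sep (fun _ => Y) (Q := fun x y => ∀ n : ℕ, y ∈ app (s x) (n : Ordinal).toZFSet)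
      fun a _ => by
        simp only [hD.mem]
        exact (eventually_countable_forall (l := (𝒰 : Filter ZFSet.{u}))).symm, hF]
    simp only [mem_sep, eventually_and]
    exact ⟨Eventually.of_forall fun _ => sep_subset, hY,
      eventually_countable_forall.2 fun n => ((hF _).1 (hs n)).2⟩
  · rw [V.rng]
    rintro _ ⟨f, rfl⟩ y hy
    exact h.tr _ _ hy
  · rw [V.rng]
    ext x
    constructor
    · rintro ⟨G, rfl⟩
      refine ⟨πD fun _ => gr Y G, ⟨⟨_, rfl⟩, hD.isFn_gr (fun _ => Y) fun _ => G⟩, ?_⟩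
      show app (k (πD fun _ => gr Y G)) (π fun i => i) = π G
      rw [hϖ]
      exact h.congr (hY.mono fun i hi => app_gr G hi)
    · rintro ⟨_, ⟨⟨f, rfl⟩, -⟩, rfl⟩
      exact ⟨_, (hϖ f).symm⟩
  · rintro _ ⟨f, rfl⟩ _ ⟨g, rfl⟩ - -
    rw [key (· ∈ ·) hD.mem, hϖ, hϖ, h.mem]
  · rintro _ ⟨f, rfl⟩ _ ⟨g, rfl⟩ - -
    rw [key (· = ·) hD.eq, hϖ, hϖ, h.eq]
  · rintro _ ⟨f, rfl⟩
    rw [hD.prod_const, hϖ, hk]
    exact h.congr (hY.mono fun i hi => (app_gr (fun _ => f (t i)) hi).symm)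

theorem VU.ev_mem {Y U : ZFSet.{u}} {M : Set ZFSet.{u}} {j : ZFSet.{u} → ZFSet.{u}}
    {𝒰 : Ultrafilter ZFSet.{u}} {π : (ZFSet.{u} → ZFSet.{u}) → ZFSet.{u}} (V : VU Y U M j 𝒰 π) :
    ∀ᶠ i in (𝒰 : Filter ZFSet.{u}), i ∈ Y := by
  rw [V.ev, sep_congr (q := fun _ => True) fun y hy => by simp [hy], ← V.ev]
  exact Eventually.of_forall fun _ => trivial

theorem exists_derived {𝒰 : Ultrafilter ZFSet.{u}} [CountableInterFilter (𝒰 : Filter ZFSet.{u})]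
    {δ : Ordinal.{u}} {g : ZFSet.{u} → Ordinal.{u}} (hg : ∀ i, g i < δ) :
    ∃ D : ZFSet.{u}, (∀ X, X ∈ D ↔ X ⊆ δ.toZFSet ∧
      ∀ᶠ i in (𝒰 : Filter ZFSet.{u}), (g i).toZFSet ∈ X) ∧ IsUF Set.univ δ.toZFSet D := by
  have hg' : ∀ i, (g i).toZFSet ∈ δ.toZFSet := fun i => toZFSet_mem_toZFSet_iff.2 (hg i)
  obtain ⟨D, hD⟩ : ∃ D : ZFSet.{u}, ∀ X, X ∈ D ↔ X ⊆ δ.toZFSet ∧
      ∀ᶠ i in (𝒰 : Filter ZFSet.{u}), (g i).toZFSet ∈ X :=
    ⟨ZFSet.sep (fun X => ∀ᶠ i in (𝒰 : Filter ZFSet.{u}), (g i).toZFSet ∈ X) (powerset δ.toZFSet),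
      fun X => by rw [mem_sep, ZFSet.mem_powerset]⟩
  have hDu : IsUF Set.univ δ.toZFSet D := by
    refine ⟨trivial, trivial, fun A hA => ((hD A).1 hA).1,
      (hD _).2 ⟨subset_rfl, Eventually.of_forall hg'⟩, fun a => ?_, fun A hA B hB => ?_,
      fun A hA B _ h1 h2 => ?_, fun A _ h1 => ?_, fun s _ hs => ?_⟩
    · obtain ⟨i, hi⟩ := ((hD _).1 a).2.exists
      exact notMem_empty _ hi
    · rw [hD] at hA hB ⊢
      exact ⟨fun z hz => hA.1 (ZFSet.mem_inter.1 hz).1,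
        (hA.2.and hB.2).mono fun i hi => ZFSet.mem_inter.2 hi⟩
    · rw [hD] at hA ⊢
      exact ⟨h2, hA.2.mono fun i hi => h1 hi⟩
    · rw [hD, hD]
      by_cases ha : ∀ᶠ i in (𝒰 : Filter ZFSet.{u}), (g i).toZFSet ∈ A
      · exact Or.inl ⟨h1, ha⟩
      · rw [← Ultrafilter.eventually_not] at ha
        exact Or.inr ⟨fun z hz => (ZFSet.mem_sdiff.1 hz).1,
          ha.mono fun i hi => ZFSet.mem_sdiff.2 ⟨hg' i, hi⟩⟩
    · rw [hD]
      refine ⟨sep_subset, ?_⟩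
      simp only [mem_sep, eventually_and]
      exact ⟨Eventually.of_forall hg',
        eventually_countable_forall.2 fun n => ((hD _).1 (hs n)).2⟩
  exact ⟨D, hD, hDu⟩

theorem key (hUA : UA.{u}) {Y U : ZFSet.{u}} {M : Set ZFSet.{u}} {j : ZFSet.{u} → ZFSet.{u}}
    {𝒰 : Ultrafilter ZFSet.{u}} {π : (ZFSet.{u} → ZFSet.{u}) → ZFSet.{u}} (V : VU Y U M j 𝒰 π)
    (hirr : Irred Y U) {δ : Ordinal.{u}} (hfix : ∀ a < δ, j a.toZFSet = a.toZFSet)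
    {g : ZFSet.{u} → Ordinal.{u}} (hg : ∀ i, g i < δ) (hS : Snd 𝒰 π δ (ov π g))
    (hns : ¬ ∃ f : ZFSet.{u} → ZFSet.{u},
      ∀ᶠ i in (𝒰 : Filter ZFSet.{u}), f (g i).toZFSet = i) : Der 𝒰 π δ g := by
  have h := V.col
  have := V.cc
  have hg' : ∀ i, (g i).toZFSet ∈ δ.toZFSet := fun i => toZFSet_mem_toZFSet_iff.2 (hg i)
  obtain ⟨D, hD, hDu⟩ := exists_derived (𝒰 := 𝒰) hg
  have hVD : ∀ {MD jD π0}, IsUlt Set.univ δ.toZFSet D MD jD π0 →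
      ∃ πD, VU δ.toZFSet D MD jD (𝒰.map fun i => (g i).toZFSet) πD := by
    intro MD jD π0 h0
    obtain ⟨𝒟, πD, VD⟩ := h0.vu
    have : 𝒟 = 𝒰.map fun i => (g i).toZFSet := Ultrafilter.ext fun S => by
      refine (VD.ev (· ∈ S)).trans ?_
      rw [hD]
      simp only [mem_sep, hg', true_and]
      exact and_iff_right sep_subset
    subst this
    exact ⟨πD, VD⟩
  have hVU : ∀ {MU jU π0}, IsUlt Set.univ Y U MU jU π0 → MU = M ∧ jU = j := by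
    intro MU jU π0 h0
    obtain ⟨𝒰', π', V'⟩ := h0.vu
    exact (V'.uf_eq V).2.2
  obtain ⟨MD, jD, πD0, MU, jU, πU0, hD0, hU0, N, e', e, he', he, hcomm⟩ :=
    hUA _ D Y U hDu V.uf
  obtain ⟨πD, VD⟩ := hVD hD0
  obtain ⟨rfl, rfl⟩ := hVU hU0
  rw [VD.rng] at he'
  rw [V.rng] at he
  obtain ⟨𝒵, ϱ, h1, hN, hϱ⟩ := h.internal he
  obtain ⟨𝒵', ϱ', h2, hN', hϱ'⟩ := VD.col.internal he'
  rcases tri h hg h1 h2 (hN.symm.trans hN') (fun x => by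
    rw [← hϱ fun _ => x, ← hϱ' fun _ => x, ← V.emb, ← VD.emb, hcomm]) hS with hd | heq
  · exact hd
  obtain ⟨Ψ, hΨ⟩ : (ϱ fun q => q.1) ∈ Set.range ϱ' := by
    rw [← hN', hN]
    exact ⟨_, rfl⟩
  obtain ⟨k, hk1, hk2⟩ := internal_of V VD.col
    (fun x => ZFSet.sep (fun A => ∀ᶠ y in (𝒵' x : Filter ZFSet.{u}), Ψ (x, y) ∈ A) (powerset Y))
    fun a => by
      rw [VD.col.mem]
      simp only [mem_sep, ZFSet.mem_powerset, eventually_and]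
      refine and_congr Iff.rfl ?_
      have b := (h2.mem Ψ fun q => a q.1).trans ev_sum
      rw [hΨ, heq a, h1.mem] at b
      exact b.symm.trans (ev_sum_fst (p := fun i => i ∈ a (g i).toZFSet))
  rw [← VD.rng] at hk1
  rcases hirr _ D hDu ⟨MD, jD, πD0, MU, jU, πU0, hD0, hU0, k, hk1,
    fun x => by rw [VD.emb, hk2]⟩ with ⟨x, hx⟩ | hrf
  · rw [hD] at hx
    obtain ⟨a, ha, rfl⟩ := mem_toZFSet_iff.1 (hx.1 (ZFSet.mem_singleton.2 rfl))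
    refine ⟨fun _ X => a.toZFSet ∈ X, fun x _ => ?_⟩
    rw [← h.mem (fun _ => a.toZFSet) x, ← V.emb, hfix a ha]
    refine (eventually_congr (hx.2.mono fun i hi => by rw [ZFSet.mem_singleton.1 hi])).trans ?_
    simp
  obtain ⟨MU', jU', πU1, MD', jD', πD1, hU1, hD1, e1, he1, hcomm1⟩ := hrf
  obtain ⟨rfl, rfl⟩ := hVU hU1
  obtain ⟨πD', VD'⟩ := hVD hD1
  rw [V.rng] at he1
  obtain ⟨𝒵1, ϱ1, h3, hN1, hϱ1⟩ := h.internal he1
  have h4 : Col (sum (𝒰.map fun i => (g i).toZFSet) fun _ => pure ∅)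
      fun Φ => πD' fun x => Φ (x, ∅) :=
    ⟨fun f g => VD'.col.mem _ _, fun f g => VD'.col.eq _ _, fun g z hz => by
      obtain ⟨f, rfl⟩ := VD'.col.tr _ _ hz
      exact ⟨fun q => f q.1, rfl⟩⟩
  have hr : Set.range ϱ1 = Set.range fun Φ : ZFSet.{u} × ZFSet.{u} → ZFSet.{u} =>
      πD' fun x => Φ (x, ∅) := by
    rw [← hN1, VD'.rng]
    ext z
    exact ⟨fun ⟨f, hf⟩ => ⟨fun q => f q.1, hf⟩, fun ⟨f, hf⟩ => ⟨_, hf⟩⟩
  rcases tri h hg h3 h4 hr (fun x => by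
    rw [← hϱ1 fun _ => x, ← V.emb, hcomm1, VD'.emb]) hS with hd | heq1
  · exact hd
  obtain ⟨f, hf⟩ : (ϱ1 fun q => q.1) ∈ Set.range πD' := by
    rw [← VD'.rng, hN1]
    exact ⟨_, rfl⟩
  have b := (heq1 f).symm.trans hf
  rw [h3.eq] at b
  exact absurd ⟨f, (ev_sum_fst (p := fun i => f (g i).toZFSet = i)).1 b⟩ hns

end Pool.Agent.P.MP_19a1a5_lc
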