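import Pool.Agent.P.MP_19a1a5_lc.Ind

/-!
The dichotomy for irreducible ultrafilters.
-/

set_option autoImplicit false
set_option linter.unusedSectionVars false

namespace Pool.Agent.P.MP_19a1a5_lc

open ZFSet Filter Ordinal Cardinal

universe u v

attribute [local irreducible] app gr ZFSet.sep ZFSet.pair

theorem exists_en {κ : Cardinal.{u}} (hκ : ℵ₀ < κ) {G : Set Ordinal.{u}}
    (hG : #G ≤ Cardinal.lift.{u + 1} κ) : ∃ en : Ordinal.{u} → Finset Ordinal.{u},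
      (∀ a, ∀ y ∈ en a, y ∈ G) ∧ ∀ s : Finset Ordinal.{u}, (∀ y ∈ s, y ∈ G) →
        ∃ a < κ.ord, en a = s := by
  classical
  have h1 : #(List G) ≤ #(Set.Iio κ.ord) := by
    rw [Cardinal.mk_Iio_ordinal, card_ord]
    exact (mk_list_le_max _).trans (max_le (by simpa using hκ.le) hG)
  obtain ⟨ι⟩ := h1
  refine ⟨fun a => if h : a < κ.ord then
    ((Function.invFun ι ⟨a, h⟩).map Subtype.val).toFinset else ∅, fun a y hy => ?_, fun s hs => ?_⟩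
  · dsimp only at hy
    split_ifs at hy with h
    · obtain ⟨z, -, rfl⟩ := List.mem_map.1 (List.mem_toFinset.1 hy)
      exact z.2
    · simp at hy
  · let l : List G := s.toList.attach.map fun x => ⟨x.1, hs _ (Finset.mem_toList.1 x.2)⟩
    refine ⟨(ι l).1, (ι l).2, ?_⟩
    dsimp only
    rw [dif_pos (show (ι l).1 < κ.ord from (ι l).2)]
    rw [show Function.invFun ι ⟨(ι l).1, (ι l).2⟩ = l from Function.leftInverse_invFun ι.injective l]
    ext a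
    simp [l]

theorem Crit.graph {I : Type v} {𝒰 : Ultrafilter I} {π : (I → ZFSet.{u}) → ZFSet.{u}}
    {δ : Ordinal.{u}} {k : I → Ordinal.{u}} (C : Crit 𝒰 π δ k) {a : I → Ordinal.{u}}
    (hS : Snd 𝒰 π δ (ov π a)) : ∃ G ∈ Set.range π, ∀ z, z ∈ G ↔
      ∃ X, X ⊆ δ.toZFSet ∧ z = pair X ((π fun _ => X) ∩ (ov π a).toZFSet) := by
  have h := C.col
  obtain ⟨Q, hQ⟩ := hS
  have e : ∀ x, π x ⊆ δ.toZFSet → (π fun i => ZFSet.sep (Q i (x i)) (a i).toZFSet) =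
      (π fun _ => π x) ∩ (ov π a).toZFSet := by
    intro x hx
    rw [h.sep (fun i => (a i).toZFSet) (P := (· ∈ π fun _ => π x)) fun y hy => by
      rw [h.mem, hQ x y hx (by rwa [h.ov_toZFSet])], ← h.ov_toZFSet]
    ext z
    simp only [mem_sep, ZFSet.mem_inter, and_comm]
  have hm : ∀ z, z ∈ (range fun X : powerset δ.toZFSet =>
      pair X.1 ((π fun _ => X.1) ∩ (ov π a).toZFSet)) ↔
      ∃ X, X ⊆ δ.toZFSet ∧ z = pair X ((π fun _ => X) ∩ (ov π a).toZFSet) := fun z => by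
    rw [ZFSet.mem_range]
    exact ⟨fun ⟨X, hX⟩ => ⟨X.1, ZFSet.mem_powerset.1 X.2, hX.symm⟩,
      fun ⟨X, h1, h2⟩ => ⟨⟨X, ZFSet.mem_powerset.2 h1⟩, h2.symm⟩⟩
  refine ⟨_, h.exists_eq (Q := fun i z => ∃ X, X ⊆ (k i).toZFSet ∧
    z = pair X (ZFSet.sep (Q i X) (a i).toZFSet)) (fun z hz => ?_) fun f => ?_, hm⟩
  · obtain ⟨X, hX, rfl⟩ := (hm z).1 hz
    obtain ⟨x, rfl⟩ := C.exists_sub hX
    exact ⟨_, by rw [h.pair x, e x hX]⟩
  · rw [hm]
    constructor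
    · rintro ⟨X, hX, e1⟩
      obtain ⟨x, rfl⟩ := C.exists_sub hX
      rw [← e x hX, ← h.pair, h.eq] at e1
      rw [← C.pi_k, h.subset] at hX
      exact (hX.and e1).mono fun i hi => ⟨_, hi⟩
    · intro hf
      obtain ⟨x, hx⟩ := ev_choice hf
      have hX : π x ⊆ δ.toZFSet := by
        rw [← C.pi_k, h.subset]
        exact hx.mono fun i hi => hi.1
      refine ⟨π x, hX, ?_⟩
      rw [← e x hX, ← h.pair, h.eq]
      exact hx.mono fun i hi => hi.2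

theorem dodd_of_seed {Y U : ZFSet.{u}} {M : Set ZFSet.{u}} {j : ZFSet.{u} → ZFSet.{u}}
    {𝒰 : Ultrafilter ZFSet.{u}} {π : (ZFSet.{u} → ZFSet.{u}) → ZFSet.{u}} (V : VU Y U M j 𝒰 π)
    {κ : Cardinal.{u}} {k a : ZFSet.{u} → Ordinal.{u}} (C : Crit 𝒰 π κ.ord k)
    (ha : ∀ i, a i < κ.ord) {f : ZFSet.{u} → ZFSet.{u}}
    (hf : ∀ᶠ i in (𝒰 : Filter ZFSet.{u}), f (a i).toZFSet = i) (hS : Snd 𝒰 π κ.ord (ov π a)) :
    ∃ W, DoddSound κ.ord W ∧ RKEquiv U W := by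
  have h := V.col
  have := V.cc
  have ha' : ∀ i, (a i).toZFSet ∈ κ.ord.toZFSet := fun i => toZFSet_mem_toZFSet_iff.2 (ha i)
  obtain ⟨W, hW, hWu⟩ := exists_derived (𝒰 := 𝒰) ha
  have hsep : ∀ p : ZFSet.{u} → Prop, ZFSet.sep p κ.ord.toZFSet ∈ W ↔
      ∀ᶠ i in (𝒰 : Filter ZFSet.{u}), p (a i).toZFSet := fun p => by
    rw [hW]
    simp only [mem_sep, ha', true_and]
    exact and_iff_right sep_subset
  refine ⟨W, ⟨fun A hA => ?_, M, j, fun φ => π fun i => app φ (a i).toZFSet,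
    ⟨hWu, ?_, ?_, fun φ _ ψ _ _ _ => ?_, fun φ _ ψ _ _ _ => ?_, fun x _ => ?_⟩, ?_⟩, ?_⟩
  · rw [hW] at hA
    have h1 : A.card ≤ κ := by simpa [card_toZFSet] using card_mono hA.1
    rw [card_ord]
    refine h1.eq_or_lt.resolve_right fun h2 => ?_
    obtain ⟨e⟩ : Nonempty (A ≃ Set.Iio A.card.ord) := by
      rw [← Cardinal.eq, cardinalMk_coe_sort, Cardinal.mk_Iio_ordinal, card_ord]
    have h3 : ∀ᶠ i in (𝒰 : Filter ZFSet.{u}), ∃ n, ∃ hn : n < A.card.ord,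
        (e.symm ⟨n, hn⟩).1 = (a i).toZFSet := hA.2.mono fun i hi =>
      ⟨(e ⟨_, hi⟩).1, (e ⟨_, hi⟩).2, by simp⟩
    obtain ⟨n, hn⟩ := ev_choice h3
    obtain ⟨b, -, hb⟩ := C.const_of_lt (e := n)
      ((hn.and (C.lt_k (ord_lt_ord.2 h2))).mono fun i hi => hi.1.1.trans hi.2)
    obtain ⟨i0, h4, h5, h6⟩ := (hf.and (hn.and hb)).exists
    refine C.not_const (k i0) ((hf.and (hn.and hb)).mono fun i hi => ?_)
    obtain ⟨p, hp⟩ := hi.2.1
    obtain ⟨q, hq⟩ := h5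
    have : (a i).toZFSet = (a i0).toZFSet := by
      rw [← hp, ← hq]
      simp only [hi.2.2, h6]
    rw [← hi.1, this, h4]
  · rw [V.rng]
    rintro _ ⟨g, rfl⟩ y hy
    exact h.tr _ _ hy
  · rw [V.rng]
    ext x
    constructor
    · rintro ⟨G, rfl⟩
      exact ⟨gr κ.ord.toZFSet fun z => G (f z), ⟨trivial, isFn_gr _ _⟩,
        h.congr (hf.mono fun i hi => by rw [app_gr _ (ha' i), hi])⟩
    · rintro ⟨φ, -, rfl⟩
      exact ⟨_, rfl⟩
  · rw [hsep, h.mem]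
  · rw [hsep, h.eq]
  · rw [V.emb, prod_eq_gr]
    exact h.congr (Eventually.of_forall fun i => (app_gr (fun _ => x) (ha' i)).symm)
  · obtain ⟨G, h1, h2⟩ := C.graph hS
    refine ⟨G, V.rng ▸ h1, fun z => ?_⟩
    have e : (π fun i => app (pairSep (· = ·) κ.ord.toZFSet κ.ord.toZFSet) (a i).toZFSet) =
        (ov π a).toZFSet := by
      rw [h.ov_toZFSet, pairSep_eq_gr]
      exact h.congr (Eventually.of_forall fun i => app_gr (fun y => y) (ha' i))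
    simp only [h2, e, V.emb]
  · have hA := (V.ev _).1 hf
    refine ⟨_, hA, ZFSet.sep (fun x => f x ∈ Y ∧ (a (f x)).toZFSet = x) κ.ord.toZFSet, ?_,
      fun i => (a i).toZFSet, ⟨fun i hi => ?_, fun i hi i' hi' e => ?_, fun x hx => ?_⟩,
      fun B hB => ?_⟩
    · rw [hsep]
      exact (hf.and V.ev_mem).mono fun i hi => by rw [hi.1]; exact ⟨hi.2, rfl⟩
    · obtain ⟨h1, h2⟩ := mem_sep.1 hi
      exact mem_sep.2 ⟨ha' i, by rw [h2]; exact ⟨h1, rfl⟩⟩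
    · rw [← (mem_sep.1 hi).2, ← (mem_sep.1 hi').2]
      exact congrArg f e
    · obtain ⟨-, h1, h2⟩ := mem_sep.1 hx
      exact ⟨f x, mem_sep.2 ⟨h1, by rw [h2]⟩, h2⟩
    · have e : ZFSet.sep (fun i => (a i).toZFSet ∈ B)
          (ZFSet.sep (fun i => f (a i).toZFSet = i) Y) =
          ZFSet.sep (fun i => f (a i).toZFSet = i ∧ (a i).toZFSet ∈ B) Y := by
        ext z
        simp only [mem_sep, and_assoc]
      rw [e, ← V.ev, hW, eventually_and]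
      exact ⟨fun p => ⟨hf, p.2⟩, fun p => ⟨fun z hz => sep_subset (hB hz), p.2⟩⟩

theorem main (hUA : UA.{u}) {Y U : ZFSet.{u}} {M : Set ZFSet.{u}} {j π0 : ZFSet.{u} → ZFSet.{u}}
    (hU : IsUlt Set.univ Y U M j π0) (hirr : Irred Y U) {κ : Cardinal.{u}}
    (hmove : j κ.ord.toZFSet ≠ κ.ord.toZFSet) (hfix : ∀ a < κ.ord, j a.toZFSet = a.toZFSet)
    (β : Ordinal.{u}) (hgen : #{ν | ν < β ∧ IsGen j ν} ≤ Cardinal.lift.{u + 1} κ) :
    (∃ W, DoddSound κ.ord W ∧ RKEquiv U W) ∨ (β.toZFSet ∈ j κ.ord.toZFSet ∧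
      ∃ G ∈ M, ∀ z, z ∈ G ↔ ∃ X, X ⊆ κ.ord.toZFSet ∧ z = pair X (j X ∩ β.toZFSet)) := by
  classical
  obtain ⟨𝒰, π, V⟩ := hU.vu
  have h := V.col
  have := V.cc
  have hj : j = fun z => π fun _ => z := funext V.emb
  have hfix' : ∀ a < κ.ord, (π fun _ => a.toZFSet) = a.toZFSet := fun a ha =>
    (V.emb _).symm.trans (hfix a ha)
  have hlt : κ.ord < ov π fun _ => κ.ord := by
    refine lt_of_le_of_ne (le_of_forall_lt fun a ha => ?_) fun e => hmove ?_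
    · have : (ov π fun _ => a) = a := toZFSet_injective (by rw [h.ov_toZFSet, hfix' a ha])
      rw [← this, h.ov_lt]
      exact Eventually.of_forall fun _ => ha
    · rw [V.emb, ← h.ov_toZFSet, ← e]
  obtain ⟨k0, hk0⟩ := h.exists_ov hlt
  have hk1 : ∀ᶠ i in (𝒰 : Filter ZFSet.{u}), k0 i < κ.ord := by
    rw [← h.ov_lt, hk0]
    exact hlt
  have h0 : 0 < κ.ord := by
    obtain ⟨i, hi⟩ := hk1.exists
    exact bot_le.trans_lt hi
  obtain ⟨k, C⟩ : ∃ k, Crit 𝒰 π κ.ord k :=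
    ⟨fun i => if k0 i < κ.ord then k0 i else 0, h,
      ((h.ov_eq _ _).2 (hk1.mono fun i hi => if_pos hi)).trans hk0, fun i => by
        split_ifs with hi
        exacts [hi, h0], hfix'⟩
  have hκ : ℵ₀ < κ := by
    by_contra hn
    obtain ⟨n, hn'⟩ := ev_nat (𝒰 := 𝒰) (p := fun n i => k i = n) (Eventually.of_forall fun i =>
      lt_omega0.1 ((C.lt i).trans_le (by simpa using ord_le_ord.2 (not_lt.1 hn))))
    exact C.not_const _ hn'
  obtain ⟨rep, cd, D⟩ := exists_cod h hκ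
  have hen : ∀ β0 ≤ β, ∃ en : Ordinal.{u} → Finset Ordinal.{u},
      (∀ a, ∀ y ∈ en a, IsGen (fun z => π fun _ => z) y ∧ y < β0) ∧
      ∀ s : Finset Ordinal.{u}, (∀ y ∈ s, IsGen (fun z => π fun _ => z) y ∧ y < β0) →
        ∃ a < κ.ord, en a = s := fun β0 hβ0 =>
    exists_en hκ (G := {y | IsGen (fun z => π fun _ => z) y ∧ y < β0})
      ((mk_le_mk_of_subset (t := {ν | ν < β ∧ IsGen j ν})
        fun y hy => ⟨hy.2.trans_le hβ0, hj ▸ hy.1⟩).trans hgen)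
  let S : Set Ordinal.{u} := {γ | ∃ w : ZFSet.{u} → Ordinal.{u}, (∀ i, w i < κ.ord) ∧ ov π w = γ ∧
    ∃ f : ZFSet.{u} → ZFSet.{u}, ∀ᶠ i in (𝒰 : Filter ZFSet.{u}), f (w i).toZFSet = i}
  have hkey : ∀ w : ZFSet.{u} → Ordinal.{u}, (∀ i, w i < κ.ord) → ov π w ∉ S →
      Snd 𝒰 π κ.ord (ov π w) → Der 𝒰 π κ.ord w := fun w a b c =>
    key hUA V hirr hfix a c fun d => b ⟨w, a, rfl, d⟩
  by_cases hS : ∃ γ ∈ S, γ ≤ β
  · left
    obtain ⟨γ, hγ, hγβ⟩ := hS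
    obtain ⟨α, ⟨a, ha, rfl, f, hf⟩, hmin⟩ := wellFounded_lt.has_min S ⟨γ, hγ⟩
    obtain ⟨en, hen1, hen2⟩ := hen _ ((not_lt.1 (hmin γ hγ)).trans hγβ)
    exact dodd_of_seed V C ha hf (snd_all C D h0 en hen1 hen2
      (fun w p q r => hkey w p (fun s => hmin _ s q) r) _ le_rfl
      ((h.ov_lt _ _).2 (Eventually.of_forall ha)))
  right
  have hβ : β < ov π fun _ => κ.ord := by
    by_contra hn
    obtain ⟨en, hen1, hen2⟩ := hen _ (not_lt.1 hn)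
    exact exists_seed hκ C D en hen1 hen2 fun w p r => hkey w p (fun s => hS ⟨_, s,
      ((h.ov_lt _ _).2 (Eventually.of_forall p)).le.trans (not_lt.1 hn)⟩) r
  obtain ⟨en, hen1, hen2⟩ := hen β le_rfl
  have h1 := snd_all C D h0 en hen1 hen2
    (fun w p q r => hkey w p (fun s => hS ⟨_, s, q.le⟩) r) β le_rfl hβ
  rw [← D.ov_rep β hβ] at h1
  obtain ⟨G, h2, h3⟩ := C.graph h1
  rw [D.ov_rep β hβ] at h3
  refine ⟨?_, G, V.rng ▸ h2, fun z => by simp only [h3, V.emb]⟩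
  rw [V.emb, ← h.ov_toZFSet]
  exact toZFSet_mem_toZFSet_iff.2 hβ

end Pool.Agent.P.MP_19a1a5_lc
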